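import Mathlib

set_option autoImplicit false
open MeasureTheory Set Metric Complex
open scoped Real ENNReal

namespace Pool.Agent.H788R3

/-- uniqueness of Laurent/Fourier coefficients on a circle -/
theorem circle_unique {r : ℝ} (hr : 0 < r) {f : ℂ → ℂ} (hf : ContinuousOn f (sphere 0 r))
    (h : ∀ j : ℤ, (∮ z in C(0, r), z ^ (-j-1) * f z) = 0) :
    ∀ z ∈ sphere (0:ℂ) r, f z = 0 := by
  have : Fact (0 < 2 * π) := ⟨Real.two_pi_pos⟩
  have hmap : ∀ x : AddCircle (2 * π), (r : ℂ) * (AddCircle.toCircle x : ℂ) ∈ sphere (0:ℂ) r := by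
    intro x
    simp [abs_of_pos hr, Circle.norm_coe]
  let F : C(AddCircle (2 * π), ℂ) :=
    ⟨fun x => f ((r : ℂ) * (AddCircle.toCircle x : ℂ)), by
      refine hf.comp_continuous ?_ hmap
      exact continuous_const.mul (continuous_subtype_val.comp (AddCircle.continuous_toCircle))⟩
  have hcoef : ∀ n : ℤ, fourierCoeff F n = 0 := by
    intro n
    rw [fourierCoeff_eq_intervalIntegral _ _ 0]
    have h1 := h n
    rw [circleIntegral] at h1
    have h2 : ∀ θ : ℝ, deriv (circleMap 0 r) θ • ((circleMap 0 r θ) ^ (-n-1) * f (circleMap 0 r θ))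
        = (I * (r:ℂ)^(-n)) * ((fourier (-n) (θ : AddCircle (2 * π))) • F θ) := by
      intro θ
      have hne : circleMap 0 r θ ≠ 0 := by
        simpa using circleMap_ne_center (c := 0) (θ := θ) hr.ne'
      have hF : F (θ : AddCircle (2 * π)) = f (circleMap 0 r θ) := by
        simp only [F, ContinuousMap.coe_mk, circleMap, zero_add, AddCircle.toCircle_apply_mk]
        congr 2
        rw [Circle.coe_exp]
        congr 1
        push_cast
        field_simp
      rw [hF, deriv_circleMap, fourier_coe_apply]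
      simp only [smul_eq_mul]
      have h3 : (circleMap 0 r θ) ^ (-n-1) = (circleMap 0 r θ) ^ (-n) * (circleMap 0 r θ)⁻¹ := by
        rw [zpow_sub_one₀ hne]
      have h4 : (circleMap 0 r θ) ^ (-n) = (r:ℂ)^(-n) * cexp (2 * π * I * ((-n : ℤ):ℂ) * θ / ((2 * π : ℝ) : ℂ)) := by
        simp only [circleMap, zero_add]
        rw [mul_zpow, ← Complex.exp_int_mul]
        congr 2
        push_cast
        field_simp
      rw [h3, h4]
      field_simp
    simp_rw [h2] at h1
    rw [intervalIntegral.integral_const_mul] at h1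
    have h5 : (I * (r:ℂ)^(-n)) ≠ 0 := by
      apply mul_ne_zero I_ne_zero
      exact zpow_ne_zero _ (by exact_mod_cast hr.ne')
    have h6 := (mul_eq_zero.mp h1).resolve_left h5
    rw [zero_add, h6, smul_zero]
  have hsum := hasSum_fourier_series_of_summable (f := F) (by
    have : fourierCoeff F = fun _ => 0 := funext hcoef
    rw [this]
    exact summable_zero)
  have hF0 : F = 0 := by
    have h7 : HasSum (fun i => fourierCoeff F i • fourier i) (0 : C(AddCircle (2 * π), ℂ)) := by
      simp only [hcoef, zero_smul]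
      exact hasSum_zero
    exact hsum.unique h7
  intro z hz
  have hz' : ‖z‖ = r := by simpa using hz
  have hzθ : z = (r : ℂ) * (AddCircle.toCircle ((Complex.arg z : ℝ) : AddCircle (2 * π)) : ℂ) := by
    rw [AddCircle.toCircle_apply_mk, Circle.coe_exp, ← hz']
    conv_lhs => rw [← Complex.norm_mul_exp_arg_mul_I z]
    congr 2
    push_cast
    field_simp
  have h8 := congrArg (fun G : C(AddCircle (2 * π), ℂ) => G ((Complex.arg z : ℝ) : AddCircle (2 * π))) hF0
  simp only [F, ContinuousMap.coe_mk, ContinuousMap.zero_apply] at h8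
  rw [← hzθ] at h8
  exact h8

/-- radius independence of the weighted circle integral -/
theorem circle_radius {f : ℂ → ℂ} {r R : ℝ} (h0 : 0 < r) (hle : r ≤ R) (j : ℤ)
    (hd : ∀ z : ℂ, r ≤ ‖z‖ → ‖z‖ ≤ R → DifferentiableAt ℂ f z) :
    (∮ z in C(0, R), z ^ (-j-1) * f z) = ∮ z in C(0, r), z ^ (-j-1) * f z := by
  have hne : ∀ z : ℂ, r ≤ ‖z‖ → z ≠ 0 := by
    intro z hz h
    rw [h, norm_zero] at hz
    linarith
  have hD : ∀ z : ℂ, r ≤ ‖z‖ → ‖z‖ ≤ R → DifferentiableAt ℂ (fun z => z ^ (-j) * f z) z := by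
    intro z h1 h2
    exact (differentiableAt_zpow.mpr (Or.inl (hne z h1))).mul (hd z h1 h2)
  have key := Complex.circleIntegral_sub_center_inv_smul_eq_of_differentiable_on_annulus_off_countable
    (c := 0) h0 hle (f := fun z => z ^ (-j) * f z) (s := ∅) countable_empty
    (by
      intro z hz
      have h1 : ‖z‖ ≤ R := by simpa using hz.1
      have h2 : r ≤ ‖z‖ := by simpa using hz.2
      exact (hD z h2 h1).continuousAt.continuousWithinAt)
    (by
      intro z hz
      have h1 : ‖z‖ < R := by simpa using hz.1.1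
      have h2 : r < ‖z‖ := by simpa using hz.1.2
      exact hD z h2.le h1.le)
  have hcongr : ∀ ρ : ℝ, 0 < ρ → (∮ z in C(0, ρ), (z - 0)⁻¹ • (z ^ (-j) * f z)) = ∮ z in C(0, ρ), z ^ (-j-1) * f z := by
    intro ρ hρ
    apply circleIntegral.integral_congr hρ.le
    intro z hz
    have hz0 : z ≠ 0 := by
      intro h
      rw [h] at hz
      simp at hz
      linarith
    simp only [sub_zero, smul_eq_mul]
    rw [zpow_sub_one₀ hz0]
    ring
  rw [hcongr R (h0.trans_le hle), hcongr r h0] at key
  exact key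

end Pool.Agent.H788R3
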