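import Mathlib
import Pool.Agent.H788R3.Circ

set_option autoImplicit false
open MeasureTheory Set Metric Complex
open scoped Real ENNReal

namespace Pool.Agent.H788R3

/-- Hartogs-Reinhardt domain over the punctured plane -/
def U (E : ℝ → ℝ) : Set (ℂ × ℂ) := {p | p.2 ≠ 0 ∧ ‖p.1‖ ^ 2 * E (Real.log ‖p.2‖) < 1}

/-- double Laurent coefficient -/
noncomputable def K2 (H : ℂ → ℂ → ℂ) (j k : ℤ) (r ρ : ℝ) : ℂ :=
  ∮ w in C(0, ρ), w ^ (-k-1) * ∮ z in C(0, r), z ^ (-j-1) * H z w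

variable {E : ℝ → ℝ} {H : ℂ → ℂ → ℂ}

theorem U_open (hE : Continuous E) : IsOpen (U E) := by
  have h1 : IsOpen {p : ℂ × ℂ | p.2 ≠ 0} := isOpen_ne_fun continuous_snd continuous_const
  have h2 : ContinuousOn (fun p : ℂ × ℂ => ‖p.1‖ ^ 2 * E (Real.log ‖p.2‖)) {p : ℂ × ℂ | p.2 ≠ 0} := by
    apply ContinuousOn.mul
    · exact (continuous_fst.norm.pow 2).continuousOn
    · apply hE.comp_continuousOn
      apply ContinuousOn.log
      · exact continuous_snd.norm.continuousOn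
      · intro p hp
        exact norm_ne_zero_iff.mpr hp
  have h3 := h2.isOpen_inter_preimage h1 (isOpen_Iio (a := (1:ℝ)))
  have hU : U E = {p : ℂ × ℂ | p.2 ≠ 0} ∩ (fun p : ℂ × ℂ => ‖p.1‖ ^ 2 * E (Real.log ‖p.2‖)) ⁻¹' Iio 1 :=
    Set.ext fun p => Iff.rfl
  rw [hU]
  exact h3

theorem mem_U_circle {r ρ : ℝ} (hr : 0 ≤ r) (hρ : 0 < ρ) (h : r ^ 2 * E (Real.log ρ) < 1)
    {z w : ℂ} (hz : ‖z‖ = r) (hw : ‖w‖ = ρ) : (z, w) ∈ U E := by
  refine ⟨?_, ?_⟩
  · intro h0
    simp only at h0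
    rw [h0, norm_zero] at hw
    linarith
  · simp only [hz, hw]
    exact h

theorem norm_circleMap' {r : ℝ} (hr : 0 ≤ r) (θ : ℝ) : ‖circleMap 0 r θ‖ = r := by
  simp [circleMap, abs_of_nonneg hr]

theorem cont_torus (hc : ContinuousOn (fun p : ℂ × ℂ => H p.1 p.2) (U E)) {r ρ : ℝ} (hr : 0 < r) (hρ : 0 < ρ)
    (h : r ^ 2 * E (Real.log ρ) < 1) :
    Continuous (fun q : ℝ × ℝ => H (circleMap 0 r q.1) (circleMap 0 ρ q.2)) := by
  have : Continuous (fun q : ℝ × ℝ => ((circleMap 0 r q.1, circleMap 0 ρ q.2) : ℂ × ℂ)) :=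
    ((continuous_circleMap 0 r).comp continuous_fst).prodMk ((continuous_circleMap 0 ρ).comp continuous_snd)
  exact hc.comp_continuous this (fun q => mem_U_circle hr.le hρ h (norm_circleMap' hr.le _) (norm_circleMap' hρ.le _))

theorem cont_zpow_circle {r : ℝ} (hr : 0 < r) (j : ℤ) : Continuous (fun θ : ℝ => (circleMap 0 r θ) ^ j) := by
  apply (continuous_circleMap 0 r).zpow₀
  intro θ
  left
  exact circleMap_ne_center hr.ne'

theorem cont_deriv_circle (r : ℝ) : Continuous (fun θ : ℝ => deriv (circleMap 0 r) θ) := by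
  simp only [deriv_circleMap]
  exact (continuous_circleMap 0 r).mul continuous_const

theorem K2_swap (hc : ContinuousOn (fun p : ℂ × ℂ => H p.1 p.2) (U E)) {r ρ : ℝ} (hr : 0 < r) (hρ : 0 < ρ)
    (h : r ^ 2 * E (Real.log ρ) < 1) (j k : ℤ) :
    K2 H j k r ρ = ∮ z in C(0, r), z ^ (-j-1) * ∮ w in C(0, ρ), w ^ (-k-1) * H z w := by
  unfold K2 circleIntegral
  simp only [smul_eq_mul, ← intervalIntegral.integral_const_mul]
  rw [intervalIntegral_intervalIntegral_swap]
  · congr 1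
    ext θ
    congr 1
    ext φ
    ring
  · have hcont : Continuous (Function.uncurry (fun φ θ : ℝ => deriv (circleMap 0 ρ) φ * ((circleMap 0 ρ φ) ^ (-k-1) *
        (deriv (circleMap 0 r) θ * ((circleMap 0 r θ) ^ (-j-1) * H (circleMap 0 r θ) (circleMap 0 ρ φ)))))) := by
      have h1 := cont_torus hc hr hρ h
      have h2 : Continuous (fun q : ℝ × ℝ => H (circleMap 0 r q.2) (circleMap 0 ρ q.1)) := h1.comp continuous_swap
      have h3 := cont_zpow_circle hρ (-k-1)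
      have h4 := cont_zpow_circle hr (-j-1)
      have h5 := cont_deriv_circle ρ
      have h6 := cont_deriv_circle r
      exact (h5.comp continuous_fst).mul ((h3.comp continuous_fst).mul ((h6.comp continuous_snd).mul
        ((h4.comp continuous_snd).mul h2)))
    apply (hcont.integrableOn_Icc (a := ((0:ℝ), (0:ℝ))) (b := (2 * π, 2 * π))).mono_set
    rw [uIoc_of_le Real.two_pi_pos.le, ← Icc_prod_Icc]
    exact prod_mono Ioc_subset_Icc_self Ioc_subset_Icc_self

theorem K2_r (hz : ∀ z w, (z, w) ∈ U E → DifferentiableAt ℂ (fun z => H z w) z)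
    (hEn : ∀ t, 0 ≤ E t)
    {r r' ρ : ℝ} (hr : 0 < r) (hrr : r ≤ r') (hρ : 0 < ρ)
    (h : r' ^ 2 * E (Real.log ρ) < 1) (j k : ℤ) : K2 H j k r' ρ = K2 H j k r ρ := by
  unfold K2
  apply circleIntegral.integral_congr hρ.le
  intro w hw
  have hw' : ‖w‖ = ρ := by simpa using hw
  simp only
  congr 1
  apply circle_radius hr hrr
  intro z h1 h2
  apply hz
  refine mem_U_circle (r := ‖z‖) (norm_nonneg _) hρ ?_ rfl hw'
  have : ‖z‖ ^ 2 ≤ r' ^ 2 := pow_le_pow_left₀ (norm_nonneg _) h2 2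
  nlinarith [hEn (Real.log ρ), mul_le_mul_of_nonneg_right this (hEn (Real.log ρ))]

theorem K2_rho (hc : ContinuousOn (fun p : ℂ × ℂ => H p.1 p.2) (U E))
    (hw : ∀ z w, (z, w) ∈ U E → DifferentiableAt ℂ (fun w => H z w) w)
    {r ρ ρ' : ℝ} (hr : 0 < r) (hρ : 0 < ρ) (hρρ : ρ ≤ ρ')
    (h : ∀ s, ρ ≤ s → s ≤ ρ' → r ^ 2 * E (Real.log s) < 1) (j k : ℤ) : K2 H j k r ρ' = K2 H j k r ρ := by
  rw [K2_swap hc hr (hρ.trans_le hρρ) (h ρ' hρρ le_rfl), K2_swap hc hr hρ (h ρ le_rfl hρρ)]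
  apply circleIntegral.integral_congr hr.le
  intro z hz
  have hz' : ‖z‖ = r := by simpa using hz
  simp only
  congr 1
  apply circle_radius hρ hρρ
  intro w h1 h2
  apply hw
  exact mem_U_circle (r := r) hr.le (hρ.trans_le h1) (h _ h1 h2) hz' rfl

theorem K2_const (hc : ContinuousOn (fun p : ℂ × ℂ => H p.1 p.2) (U E))
    (hz : ∀ z w, (z, w) ∈ U E → DifferentiableAt ℂ (fun z => H z w) z)
    (hw : ∀ z w, (z, w) ∈ U E → DifferentiableAt ℂ (fun w => H z w) w)
    (hE : Continuous E) (hEn : ∀ t, 0 ≤ E t)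
    {r ρ r' ρ' : ℝ} (hr : 0 < r) (hρ : 0 < ρ) (h : r ^ 2 * E (Real.log ρ) < 1)
    (hr' : 0 < r') (hρ' : 0 < ρ') (h' : r' ^ 2 * E (Real.log ρ') < 1) (j k : ℤ) :
    K2 H j k r ρ = K2 H j k r' ρ' := by
  wlog hle : ρ ≤ ρ' generalizing r ρ r' ρ'
  · exact (this hr' hρ' h' hr hρ h (le_of_not_ge hle)).symm
  -- bound for E on [log ρ, log ρ']
  obtain ⟨M, hM⟩ := (isCompact_Icc (a := Real.log ρ) (b := Real.log ρ')).exists_bound_of_continuousOn hE.continuousOn
  have hM0 : 0 ≤ M := (norm_nonneg _).trans (hM (Real.log ρ) ⟨le_rfl, Real.log_le_log hρ hle⟩)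
  set s : ℝ := min (min r r') (1 / (M + 2)) with hs
  have hs0 : 0 < s := by
    apply lt_min (lt_min hr hr')
    positivity
  have hsr : s ≤ r := (min_le_left _ _).trans (min_le_left _ _)
  have hsr' : s ≤ r' := (min_le_left _ _).trans (min_le_right _ _)
  have hsM : s ≤ 1 / (M + 2) := min_le_right _ _
  have hgood : ∀ x, ρ ≤ x → x ≤ ρ' → s ^ 2 * E (Real.log x) < 1 := by
    intro x h1 h2
    have h3 := hM (Real.log x) ⟨Real.log_le_log hρ h1, Real.log_le_log (hρ.trans_le h1) h2⟩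
    rw [Real.norm_eq_abs, abs_of_nonneg (hEn _)] at h3
    have h4 : s * (M + 2) ≤ 1 := by
      rw [le_div_iff₀ (by positivity)] at hsM
      exact hsM
    have h5 : s ≤ 1 := by nlinarith
    calc s ^ 2 * E (Real.log x) ≤ s ^ 2 * M := by gcongr
      _ ≤ s * M := mul_le_mul_of_nonneg_right (by nlinarith) hM0
      _ < 1 := by nlinarith
  rw [K2_r hz hEn hs0 hsr hρ h, K2_r hz hEn hs0 hsr' hρ' h', K2_rho hc hw hs0 hρ hle hgood]

theorem K2_neg (hz : ∀ z w, (z, w) ∈ U E → DifferentiableAt ℂ (fun z => H z w) z)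
    (hEn : ∀ t, 0 ≤ E t)
    {r ρ : ℝ} (hr : 0 < r) (hρ : 0 < ρ)
    (h : r ^ 2 * E (Real.log ρ) < 1) {j : ℤ} (hj : j < 0) (k : ℤ) : K2 H j k r ρ = 0 := by
  unfold K2
  have : ∀ w ∈ sphere (0:ℂ) ρ, w ^ (-k-1) * (∮ z in C(0, r), z ^ (-j-1) * H z w) = (fun _ => (0:ℂ)) w := by
    intro w hw
    have hw' : ‖w‖ = ρ := by simpa using hw
    obtain ⟨n, hn⟩ : ∃ n : ℕ, -j - 1 = n := ⟨(-j-1).toNat, by omega⟩
    have hd : ∀ z : ℂ, ‖z‖ ≤ r → DifferentiableAt ℂ (fun z => z ^ (-j-1) * H z w) z := by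
      intro z hzr
      rw [hn]
      simp only [zpow_natCast]
      apply (differentiableAt_id.pow n).mul
      apply hz
      refine mem_U_circle (r := ‖z‖) (norm_nonneg _) hρ ?_ rfl hw'
      have : ‖z‖ ^ 2 ≤ r ^ 2 := pow_le_pow_left₀ (norm_nonneg _) hzr 2
      nlinarith [hEn (Real.log ρ), mul_le_mul_of_nonneg_right this (hEn (Real.log ρ))]
    have h0 := Complex.circleIntegral_eq_zero_of_differentiable_on_off_countable (c := 0) hr.le
      (f := fun z => z ^ (-j-1) * H z w) (s := ∅) countable_empty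
      (by
        intro z hz
        exact (hd z (by simpa using hz)).continuousAt.continuousWithinAt)
      (by
        intro z hz
        have : ‖z‖ < r := by simpa using hz.1
        exact hd z this.le)
    rw [h0, mul_zero]
  rw [circleIntegral.integral_congr hρ.le this]
  simp [circleIntegral]

theorem torus_unique (hc : ContinuousOn (fun p : ℂ × ℂ => H p.1 p.2) (U E)) {r ρ : ℝ} (hr : 0 < r) (hρ : 0 < ρ)
    (h : r ^ 2 * E (Real.log ρ) < 1) (hK : ∀ j k : ℤ, K2 H j k r ρ = 0) :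
    ∀ z w : ℂ, ‖z‖ = r → ‖w‖ = ρ → H z w = 0 := by
  have h1 : ∀ j : ℤ, ∀ w ∈ sphere (0:ℂ) ρ, (∮ z in C(0, r), z ^ (-j-1) * H z w) = 0 := by
    intro j
    apply circle_unique hρ
    · rw [continuousOn_iff_continuous_domRestrict]
      have : (sphere (0:ℂ) ρ).domRestrict (fun w => ∮ z in C(0, r), z ^ (-j-1) * H z w) =
          fun w : sphere (0:ℂ) ρ => ∫ θ in (0:ℝ)..2 * π, (fun (w : sphere (0:ℂ) ρ) (θ : ℝ) => deriv (circleMap 0 r) θ •
            ((circleMap 0 r θ) ^ (-j-1) * H (circleMap 0 r θ) w)) w θ := by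
        ext w
        rfl
      rw [this]
      apply intervalIntegral.continuous_parametric_intervalIntegral_of_continuous'
      have hh : Continuous (fun q : sphere (0:ℂ) ρ × ℝ => H (circleMap 0 r q.2) q.1) := by
        have : Continuous (fun q : sphere (0:ℂ) ρ × ℝ => ((circleMap 0 r q.2, (q.1 : ℂ)) : ℂ × ℂ)) :=
          ((continuous_circleMap 0 r).comp continuous_snd).prodMk (continuous_subtype_val.comp continuous_fst)
        refine hc.comp_continuous this (fun q => mem_U_circle hr.le hρ h (norm_circleMap' hr.le _) ?_)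
        simpa using q.1.2
      exact ((cont_deriv_circle r).comp continuous_snd).smul
        (((cont_zpow_circle hr (-j-1)).comp continuous_snd).mul hh)
    · intro k
      exact hK j k
  intro z w hz hw
  have hw' : w ∈ sphere (0:ℂ) ρ := by simpa using hw
  refine circle_unique hr (f := fun z => H z w) ?_ (fun j => h1 j w hw') z (by simpa using hz)
  intro z' hz'
  have hz'' : ‖z'‖ = r := by simpa using hz'
  have hmem := mem_U_circle hr.le hρ h hz'' hw
  have h2 : ContinuousOn (fun z => H z w) (sphere (0:ℂ) r) := by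
    have h3 : ContinuousOn (fun z : ℂ => (z, w)) (sphere (0:ℂ) r) := by fun_prop
    refine hc.comp h3 ?_
    intro y hy
    exact mem_U_circle hr.le hρ h (by simpa using hy) hw
  exact h2 z' hz'

end Pool.Agent.H788R3
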