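import Mathlib
import Pool.Agent.H788R3.TwoD

set_option autoImplicit false
open MeasureTheory Set Metric Complex
open scoped Real ENNReal

namespace Pool.Agent.H788R3

theorem circleMap_polar (r θ : ℝ) : Complex.polarCoord.symm (r, θ) = circleMap 0 r θ := by
  rw [Complex.polarCoord_symm_apply]
  simp [circleMap, Complex.exp_mul_I]

theorem continuous_circleMap2 : Continuous (fun q : ℝ × ℝ => circleMap 0 q.1 q.2) := by
  unfold circleMap
  fun_prop

theorem polar1 (f : ℂ → ℝ≥0∞) (hf : Measurable f) :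
    ∫⁻ z, f z = ∫⁻ r in Ioi (0:ℝ), ENNReal.ofReal r * ∫⁻ θ in Ioo (-π) π, f (circleMap 0 r θ) := by
  rw [← Complex.lintegral_comp_polarCoord_symm]
  rw [polarCoord_target, Measure.volume_eq_prod, ← Measure.prod_restrict]
  have h1 : Measurable (fun p : ℝ × ℝ => ENNReal.ofReal p.1 • f (Complex.polarCoord.symm p)) := by
    have : (fun p : ℝ × ℝ => ENNReal.ofReal p.1 • f (Complex.polarCoord.symm p)) =
        fun p : ℝ × ℝ => ENNReal.ofReal p.1 * f (circleMap 0 p.1 p.2) := by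
      ext p
      rw [← circleMap_polar]
      rfl
    rw [this]
    exact (ENNReal.measurable_ofReal.comp measurable_fst).mul (hf.comp continuous_circleMap2.measurable)
  rw [lintegral_prod _ h1.aemeasurable]
  congr 1
  ext r
  have h2 : Measurable (fun θ : ℝ => f (circleMap 0 r θ)) := hf.comp (continuous_circleMap 0 r).measurable
  rw [← lintegral_const_mul _ h2]
  congr 1
  ext θ
  rw [← circleMap_polar]
  rfl

theorem polar2 (F : ℂ × ℂ → ℝ≥0∞) (hF : Measurable F) :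
    ∫⁻ p, F p = ∫⁻ ρ in Ioi (0:ℝ), ∫⁻ r in Ioi (0:ℝ), ENNReal.ofReal ρ * ENNReal.ofReal r *
      ∫⁻ φ in Ioo (-π) π, ∫⁻ θ in Ioo (-π) π, F (circleMap 0 r θ, circleMap 0 ρ φ) := by
  rw [Measure.volume_eq_prod, lintegral_prod_symm _ hF.aemeasurable]
  have h1 : ∀ w : ℂ, ∫⁻ z, F (z, w) = ∫⁻ r in Ioi (0:ℝ), ENNReal.ofReal r * ∫⁻ θ in Ioo (-π) π, F (circleMap 0 r θ, w) := by
    intro w
    exact polar1 (fun z => F (z, w)) (hF.comp (measurable_id.prodMk measurable_const))
  have hm3 : Measurable (fun q : (ℂ × ℝ) × ℝ => F (circleMap 0 q.1.2 q.2, q.1.1)) := by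
    apply hF.comp
    apply Measurable.prodMk
    · exact continuous_circleMap2.measurable.comp ((measurable_snd.comp measurable_fst).prodMk measurable_snd)
    · exact measurable_fst.comp measurable_fst
  have hm2 : Measurable (fun q : ℂ × ℝ => ENNReal.ofReal q.2 * ∫⁻ θ in Ioo (-π) π, F (circleMap 0 q.2 θ, q.1)) := by
    apply (ENNReal.measurable_ofReal.comp measurable_snd).mul
    exact hm3.lintegral_prod_right'
  have hm1 : Measurable (fun w : ℂ => ∫⁻ r in Ioi (0:ℝ), ENNReal.ofReal r * ∫⁻ θ in Ioo (-π) π, F (circleMap 0 r θ, w)) :=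
    hm2.lintegral_prod_right'
  simp_rw [h1]
  rw [polar1 _ hm1]
  congr 1
  ext ρ
  have hm4 : Measurable (fun q : ℝ × ℝ => ENNReal.ofReal q.2 * ∫⁻ θ in Ioo (-π) π, F (circleMap 0 q.2 θ, circleMap 0 ρ q.1)) :=
    hm2.comp (((continuous_circleMap 0 ρ).measurable.comp measurable_fst).prodMk measurable_snd)
  rw [lintegral_lintegral_swap hm4.aemeasurable]
  have hm5 : Measurable (fun r : ℝ => ∫⁻ φ in Ioo (-π) π, ENNReal.ofReal r * ∫⁻ θ in Ioo (-π) π, F (circleMap 0 r θ, circleMap 0 ρ φ)) := by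
    exact (hm4.comp measurable_swap).lintegral_prod_right'
  rw [← lintegral_const_mul _ hm5]
  congr 1
  ext r
  have hm6 : Measurable (fun φ : ℝ => ∫⁻ θ in Ioo (-π) π, F (circleMap 0 r θ, circleMap 0 ρ φ)) := by
    have : Measurable (fun q : ℝ × ℝ => F (circleMap 0 r q.2, circleMap 0 ρ q.1)) := by
      apply hF.comp
      exact ((continuous_circleMap 0 r).measurable.comp measurable_snd).prodMk
        ((continuous_circleMap 0 ρ).measurable.comp measurable_fst)
    exact this.lintegral_prod_right'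
  rw [lintegral_const_mul _ hm6, mul_assoc]

theorem exp_subst (G : ℝ → ℝ≥0∞) :
    ∫⁻ ρ in Ioi (0:ℝ), G ρ = ∫⁻ t : ℝ, ENNReal.ofReal (Real.exp t) * G (Real.exp t) := by
  have h := lintegral_image_eq_lintegral_abs_deriv_mul (s := univ) (f := Real.exp) (f' := Real.exp)
    MeasurableSet.univ (fun x _ => (Real.hasDerivAt_exp x).hasDerivWithinAt) Real.exp_injective.injOn G
  rw [image_univ, Real.range_exp] at h
  rw [h]
  simp

theorem circleIntegral_pi (f : ℂ → ℂ) (r : ℝ) : (∮ z in C(0, r), f z) =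
    ∫ θ in (-π)..π, deriv (circleMap 0 r) θ • f (circleMap 0 r θ) := by
  have hper : Function.Periodic (fun θ : ℝ => deriv (circleMap 0 r) θ • f (circleMap 0 r θ)) (2 * π) := by
    intro θ
    simp only [deriv_circleMap, periodic_circleMap 0 r θ]
  have h := hper.intervalIntegral_add_eq 0 (-π)
  rw [circleIntegral]
  rw [zero_add] at h
  rw [h]
  congr 1
  ring

theorem enorm_circle (f : ℂ → ℂ) {r : ℝ} (hr : 0 < r) (j : ℤ) :
    ‖∮ z in C(0, r), z ^ (-j-1) * f z‖ₑ ≤ ENNReal.ofReal (r ^ (-j)) * ∫⁻ θ in Ioo (-π) π, ‖f (circleMap 0 r θ)‖ₑ := by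
  rw [circleIntegral_pi, intervalIntegral.integral_of_le (by linarith [Real.pi_pos]), integral_Ioc_eq_integral_Ioo]
  refine (enorm_integral_le_lintegral_enorm _).trans ?_
  rw [← lintegral_const_mul' _ _ ENNReal.ofReal_ne_top]
  apply lintegral_mono
  intro θ
  simp only [deriv_circleMap, smul_eq_mul]
  rw [enorm_mul, enorm_mul, enorm_mul]
  have h1 : ‖circleMap 0 r θ‖ₑ = ENNReal.ofReal r := by
    rw [← ofReal_norm, norm_circleMap' hr.le]
  have h2 : ‖(circleMap 0 r θ) ^ (-j-1)‖ₑ = ENNReal.ofReal (r ^ (-j-1)) := by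
    rw [← ofReal_norm, norm_zpow, norm_circleMap' hr.le]
  have h3 : ‖I‖ₑ = 1 := by
    rw [← ofReal_norm]
    simp
  rw [h1, h2, h3, mul_one, ← mul_assoc, ← ENNReal.ofReal_mul hr.le]
  have h4 : r * r ^ (-j-1) = r ^ (-j) := by
    rw [zpow_sub_one₀ hr.ne']
    field_simp
  rw [h4]

theorem CS (f : ℝ → ℝ≥0∞) (hf : Measurable f) :
    (∫⁻ x in Ioo (-π) π, f x) ^ 2 ≤ ENNReal.ofReal (2 * π) * ∫⁻ x in Ioo (-π) π, f x ^ 2 := by
  have h := ENNReal.lintegral_mul_le_Lp_mul_Lq (volume.restrict (Ioo (-π) π)) Real.HolderConjugate.two_two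
    hf.aemeasurable (g := fun _ => 1) measurable_const.aemeasurable
  simp only [Pi.mul_apply, mul_one, ENNReal.one_rpow, lintegral_const, one_mul, Measure.restrict_apply MeasurableSet.univ,
    univ_inter, Real.volume_Ioo] at h
  have h2 : π - -π = 2 * π := by ring
  rw [h2] at h
  calc (∫⁻ x in Ioo (-π) π, f x) ^ 2 ≤ ((∫⁻ x in Ioo (-π) π, f x ^ (2:ℝ)) ^ (1 / 2 : ℝ) * (ENNReal.ofReal (2 * π)) ^ (1 / 2 : ℝ)) ^ 2 := by
        gcongr
    _ = (∫⁻ x in Ioo (-π) π, f x ^ (2:ℝ)) * ENNReal.ofReal (2 * π) := by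
        rw [mul_pow, ← ENNReal.rpow_natCast, ← ENNReal.rpow_natCast, ← ENNReal.rpow_mul, ← ENNReal.rpow_mul]
        norm_num
    _ = _ := by
        rw [mul_comm]
        simp only [ENNReal.rpow_two]

end Pool.Agent.H788R3
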