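import Mathlib
import Pool.Agent.H788R3.Polar

set_option autoImplicit false
open MeasureTheory Set Metric Complex
open scoped Real ENNReal

namespace Pool.Agent.H788R3

variable {E : ℝ → ℝ} {H : ℂ → ℂ → ℂ}

theorem K2_enorm {r ρ : ℝ} (hr : 0 < r) (hρ : 0 < ρ) (j k : ℤ) :
    ‖K2 H j k r ρ‖ₑ ≤ ENNReal.ofReal (ρ ^ (-k)) * ENNReal.ofReal (r ^ (-j)) *
      ∫⁻ φ in Ioo (-π) π, ∫⁻ θ in Ioo (-π) π, ‖H (circleMap 0 r θ) (circleMap 0 ρ φ)‖ₑ := by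
  refine (enorm_circle _ hρ k).trans ?_
  rw [mul_assoc]
  gcongr
  rw [← lintegral_const_mul' _ _ ENNReal.ofReal_ne_top]
  apply lintegral_mono
  intro φ
  exact enorm_circle (fun z => H z (circleMap 0 ρ φ)) hr j

theorem CS2 (f : ℝ → ℝ → ℝ≥0∞) (hf : Measurable (Function.uncurry f)) :
    (∫⁻ x in Ioo (-π) π, ∫⁻ y in Ioo (-π) π, f x y) ^ 2 ≤
      ENNReal.ofReal (2 * π) * ENNReal.ofReal (2 * π) * ∫⁻ x in Ioo (-π) π, ∫⁻ y in Ioo (-π) π, f x y ^ 2 := by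
  refine (CS _ hf.lintegral_prod_right').trans ?_
  rw [mul_assoc]
  gcongr
  rw [← lintegral_const_mul' _ _ ENNReal.ofReal_ne_top]
  apply lintegral_mono
  intro x
  exact CS _ (hf.comp (measurable_const.prodMk measurable_id))

/-- the pointwise L2 inequality on a torus -/
theorem K2_L2 (hc : ContinuousOn (fun p : ℂ × ℂ => H p.1 p.2) (U E)) {r ρ : ℝ} (hr : 0 < r) (hρ : 0 < ρ)
    (h : r ^ 2 * E (Real.log ρ) < 1) (j : ℕ) (k : ℤ) :
    ENNReal.ofReal (ρ ^ (2 * k)) * ENNReal.ofReal (r ^ (2 * j)) * ‖K2 H j k r ρ‖ₑ ^ 2 ≤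
      ENNReal.ofReal (2 * π) * ENNReal.ofReal (2 * π) *
      ∫⁻ φ in Ioo (-π) π, ∫⁻ θ in Ioo (-π) π, ‖H (circleMap 0 r θ) (circleMap 0 ρ φ)‖ₑ ^ 2 := by
  have h1 := K2_enorm (H := H) hr hρ j k
  have hcont := cont_torus hc hr hρ h
  have hm : Measurable (Function.uncurry (fun φ θ : ℝ => ‖H (circleMap 0 r θ) (circleMap 0 ρ φ)‖ₑ)) := by
    exact (hcont.comp continuous_swap).measurable.enorm
  refine le_trans ?_ (CS2 _ hm)
  have h2 : ENNReal.ofReal (ρ ^ k) * ENNReal.ofReal (r ^ j) * ‖K2 H j k r ρ‖ₑ ≤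
      ∫⁻ φ in Ioo (-π) π, ∫⁻ θ in Ioo (-π) π, ‖H (circleMap 0 r θ) (circleMap 0 ρ φ)‖ₑ := by
    calc ENNReal.ofReal (ρ ^ k) * ENNReal.ofReal (r ^ j) * ‖K2 H j k r ρ‖ₑ
        ≤ ENNReal.ofReal (ρ ^ k) * ENNReal.ofReal (r ^ j) * (ENNReal.ofReal (ρ ^ (-k)) * ENNReal.ofReal (r ^ (-(j:ℤ))) *
      ∫⁻ φ in Ioo (-π) π, ∫⁻ θ in Ioo (-π) π, ‖H (circleMap 0 r θ) (circleMap 0 ρ φ)‖ₑ) := by gcongr
      _ = (ENNReal.ofReal (ρ ^ k) * ENNReal.ofReal (ρ ^ (-k))) * (ENNReal.ofReal (r ^ j) * ENNReal.ofReal (r ^ (-(j:ℤ)))) *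
        ∫⁻ φ in Ioo (-π) π, ∫⁻ θ in Ioo (-π) π, ‖H (circleMap 0 r θ) (circleMap 0 ρ φ)‖ₑ := by ring
      _ = _ := by
        rw [← ENNReal.ofReal_mul (by positivity), ← ENNReal.ofReal_mul (by positivity)]
        have e1 : ρ ^ k * ρ ^ (-k) = 1 := by
          rw [zpow_neg]
          exact mul_inv_cancel₀ (zpow_ne_zero _ hρ.ne')
        have e2 : r ^ j * r ^ (-(j:ℤ)) = 1 := by
          rw [zpow_neg, zpow_natCast]
          exact mul_inv_cancel₀ (pow_ne_zero _ hr.ne')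
        rw [e1, e2]
        simp
  calc ENNReal.ofReal (ρ ^ (2 * k)) * ENNReal.ofReal (r ^ (2 * j)) * ‖K2 H j k r ρ‖ₑ ^ 2
      = (ENNReal.ofReal (ρ ^ k) * ENNReal.ofReal (r ^ j) * ‖K2 H j k r ρ‖ₑ) ^ 2 := by
        have e1 : ρ ^ (2 * k) = (ρ ^ k) ^ 2 := by
          rw [mul_comm, zpow_mul]
          norm_cast
        have e2 : r ^ (2 * j) = (r ^ j) ^ 2 := by rw [← pow_mul, mul_comm]
        rw [mul_pow, mul_pow, e1, e2, ENNReal.ofReal_pow (by positivity), ENNReal.ofReal_pow (by positivity)]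
    _ ≤ _ := by gcongr

/-- the radial integral of the squared monomial -/
noncomputable def J (E : ℝ → ℝ) (j : ℕ) (k : ℤ) : ℝ≥0∞ :=
  ∫⁻ ρ in Ioi (0:ℝ), ∫⁻ r in {r : ℝ | 0 < r ∧ r ^ 2 * E (Real.log ρ) < 1},
    ENNReal.ofReal ρ * ENNReal.ofReal r * (ENNReal.ofReal (ρ ^ (2 * k)) * ENNReal.ofReal (r ^ (2 * j)))

theorem measurable_ind (hE : Continuous E) (hc : ContinuousOn (fun p : ℂ × ℂ => H p.1 p.2) (U E)) :
    Measurable ((U E).indicator (fun p : ℂ × ℂ => H p.1 p.2)) := by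
  classical
  have := hc.measurable_piecewise (g := (0 : ℂ × ℂ → ℂ)) continuousOn_const (U_open hE).measurableSet
  rwa [Set.piecewise_eq_indicator] at this

theorem J_le (hE : Continuous E) (hc : ContinuousOn (fun p : ℂ × ℂ => H p.1 p.2) (U E)) (j : ℕ) (k : ℤ) (κ : ℂ)
    (hκ : ∀ r ρ : ℝ, 0 < r → 0 < ρ → r ^ 2 * E (Real.log ρ) < 1 → K2 H j k r ρ = κ) :
    ‖κ‖ₑ ^ 2 * J E j k ≤ ENNReal.ofReal (2 * π) * ENNReal.ofReal (2 * π) * ∫⁻ p in U E, ‖H p.1 p.2‖ₑ ^ 2 := by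
  have hmeas := measurable_ind hE hc
  set F : ℂ × ℂ → ℝ≥0∞ := fun p => ‖(U E).indicator (fun p : ℂ × ℂ => H p.1 p.2) p‖ₑ ^ 2 with hFdef
  have hF : Measurable F := hmeas.enorm.pow_const 2
  have h1 : ∫⁻ p in U E, ‖H p.1 p.2‖ₑ ^ 2 = ∫⁻ p, F p := by
    rw [← lintegral_indicator (U_open hE).measurableSet]
    congr 1
    ext p
    by_cases hp : p ∈ U E
    · simp [F, hp]
    · simp [F, hp]
  rw [h1, polar2 F hF, J]
  have htop : ‖κ‖ₑ ^ 2 ≠ ∞ := by simp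
  rw [← lintegral_const_mul' _ _ htop, ← lintegral_const_mul' _ _ (by finiteness)]
  apply setLIntegral_mono' measurableSet_Ioi
  intro ρ hρ
  have hρ : 0 < ρ := hρ
  rw [← lintegral_const_mul' _ _ htop, ← lintegral_const_mul' _ _ (by finiteness)]
  have hms : MeasurableSet {r : ℝ | 0 < r ∧ r ^ 2 * E (Real.log ρ) < 1} := by
    apply MeasurableSet.inter measurableSet_Ioi
    have : Measurable (fun r : ℝ => r ^ 2 * E (Real.log ρ)) := by fun_prop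
    exact this measurableSet_Iio
  refine le_trans ?_ (lintegral_mono_set (s := {r : ℝ | 0 < r ∧ r ^ 2 * E (Real.log ρ) < 1}) (fun r hr => hr.1))
  apply setLIntegral_mono' hms
  intro r hr
  have hr0 := hr.1
  have hr1 := hr.2
  have h2 := K2_L2 hc hr0 hρ hr1 j k
  rw [hκ r ρ hr0 hρ hr1] at h2
  have h3 : ∀ θ φ : ℝ, F (circleMap 0 r θ, circleMap 0 ρ φ) = ‖H (circleMap 0 r θ) (circleMap 0 ρ φ)‖ₑ ^ 2 := by
    intro θ φ
    have hmem := mem_U_circle hr0.le hρ hr1 (norm_circleMap' hr0.le θ) (norm_circleMap' hρ.le φ)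
    simp [F, hmem]
  simp_rw [h3]
  calc ‖κ‖ₑ ^ 2 * (ENNReal.ofReal ρ * ENNReal.ofReal r * (ENNReal.ofReal (ρ ^ (2 * k)) * ENNReal.ofReal (r ^ (2 * j))))
      = ENNReal.ofReal ρ * ENNReal.ofReal r * (ENNReal.ofReal (ρ ^ (2 * k)) * ENNReal.ofReal (r ^ (2 * j)) * ‖κ‖ₑ ^ 2) := by ring
    _ ≤ ENNReal.ofReal ρ * ENNReal.ofReal r * (ENNReal.ofReal (2 * π) * ENNReal.ofReal (2 * π) *
      ∫⁻ φ in Ioo (-π) π, ∫⁻ θ in Ioo (-π) π, ‖H (circleMap 0 r θ) (circleMap 0 ρ φ)‖ₑ ^ 2) := by gcongr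
    _ = _ := by ring

theorem kappa_zero (hE : Continuous E) (hc : ContinuousOn (fun p : ℂ × ℂ => H p.1 p.2) (U E)) (j : ℕ) (k : ℤ) (κ : ℂ)
    (hκ : ∀ r ρ : ℝ, 0 < r → 0 < ρ → r ^ 2 * E (Real.log ρ) < 1 → K2 H j k r ρ = κ)
    (hfin : ∫⁻ p in U E, ‖H p.1 p.2‖ₑ ^ 2 ≠ ∞) (hJ : J E j k = ∞) : κ = 0 := by
  have h := J_le hE hc j k κ hκ
  by_contra hne
  rw [hJ] at h
  have h2 : ‖κ‖ₑ ^ 2 * ∞ = ∞ := by
    apply ENNReal.mul_top
    simp [hne]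
  rw [h2, top_le_iff] at h
  have h3 : ENNReal.ofReal (2 * π) * ENNReal.ofReal (2 * π) * ∫⁻ p in U E, ‖H p.1 p.2‖ₑ ^ 2 ≠ ∞ := by
    finiteness
  exact h3 h

/-- lower bound of the radial integral -/
theorem J_ge (hE0 : ∀ t, 0 ≤ E t) (j : ℕ) (k : ℤ) :
    ∫⁻ t : ℝ, ENNReal.ofReal (Real.exp ((2 * k + 2) * t) * (1 / (4 * E t)) ^ (j + 1)) ≤ J E j k := by
  unfold J
  rw [exp_subst]
  apply lintegral_mono
  intro t
  simp only [Real.log_exp]
  rw [← lintegral_const_mul' _ _ ENNReal.ofReal_ne_top]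
  rcases (hE0 t).eq_or_lt with h0 | h0
  · rw [← h0]
    simp
  · set c := E t with hc
    set R := 1 / Real.sqrt c with hR
    have hsc : 0 < Real.sqrt c := Real.sqrt_pos.mpr h0
    have hR0 : 0 < R := by positivity
    have hR2 : R ^ 2 = 1 / c := by
      rw [hR, div_pow, Real.sq_sqrt h0.le, one_pow]
    have hsub : Ioo (R / 2) R ⊆ {r : ℝ | 0 < r ∧ r ^ 2 * c < 1} := by
      intro r hr
      have h1 : 0 < r := by linarith [hr.1]
      refine ⟨h1, ?_⟩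
      have : r ^ 2 < R ^ 2 := by nlinarith [hr.2]
      calc r ^ 2 * c < R ^ 2 * c := by gcongr
        _ = 1 := by rw [hR2]; field_simp
    refine le_trans ?_ (lintegral_mono_set hsub)
    have hconst : ∀ r ∈ Ioo (R / 2) R, ENNReal.ofReal (Real.exp t) * (ENNReal.ofReal (Real.exp t) * ENNReal.ofReal (R / 2) *
        (ENNReal.ofReal ((Real.exp t) ^ (2 * k)) * ENNReal.ofReal ((R / 2) ^ (2 * j)))) ≤
        ENNReal.ofReal (Real.exp t) * (ENNReal.ofReal (Real.exp t) * ENNReal.ofReal r *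
        (ENNReal.ofReal ((Real.exp t) ^ (2 * k)) * ENNReal.ofReal (r ^ (2 * j)))) := by
      intro r hr
      have h1 : R / 2 ≤ r := hr.1.le
      gcongr
    refine le_trans ?_ (setLIntegral_mono' measurableSet_Ioo hconst)
    rw [setLIntegral_const, Real.volume_Ioo]
    have hRR : R - R / 2 = R / 2 := by ring
    rw [hRR]
    rw [← ENNReal.ofReal_mul (by positivity), ← ENNReal.ofReal_mul (by positivity), ← ENNReal.ofReal_mul (by positivity),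
      ← ENNReal.ofReal_mul (by positivity), ← ENNReal.ofReal_mul (by positivity)]
    apply ENNReal.ofReal_le_ofReal
    apply le_of_eq
    have e1 : (1 / (4 * c)) ^ (j + 1) = (R / 2) ^ (2 * j) * (R / 2) * (R / 2) := by
      have : 1 / (4 * c) = (R / 2) ^ 2 := by
        rw [div_pow, hR2]
        field_simp
        norm_num
      rw [this, ← pow_mul]
      ring
    have e2 : Real.exp ((2 * k + 2) * t) = Real.exp t * Real.exp t * (Real.exp t) ^ (2 * k) := by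
      have e3 : (Real.exp t) ^ (2 * k) = Real.exp (t * ((2 * k : ℤ) : ℝ)) := by
        rw [Real.exp_mul, Real.rpow_intCast]
      rw [e3, ← Real.exp_add, ← Real.exp_add]
      congr 1
      push_cast
      ring
    rw [e1, e2]
    ring

end Pool.Agent.H788R3
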