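import Mathlib
import Pool.Agent.H788R3.L2

set_option autoImplicit false
open MeasureTheory Set Metric Complex
open scoped Real ENNReal

namespace Pool.Agent.H788R3

noncomputable def g0 (t : ℝ) : ℝ := max (|t| ^ (3/4 : ℝ)) (t ^ 2)

noncomputable def E0 (t : ℝ) : ℝ := Real.exp (2 * t + max (3/2 * t) (3 * t)) * g0 t

theorem g0_cont : Continuous g0 := by
  unfold g0
  apply Continuous.max
  · exact continuous_abs.rpow_const (fun x => Or.inr (by norm_num))
  · exact continuous_pow 2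

theorem E0_cont : Continuous E0 := by
  unfold E0
  exact (Real.continuous_exp.comp (by fun_prop)).mul g0_cont

theorem g0_nonneg (t : ℝ) : 0 ≤ g0 t := le_max_of_le_right (sq_nonneg t)

theorem g0_pos {t : ℝ} (ht : t ≠ 0) : 0 < g0 t := lt_max_of_lt_right (by positivity)

theorem E0_nonneg (t : ℝ) : 0 ≤ E0 t := mul_nonneg (Real.exp_pos _).le (g0_nonneg t)

theorem E0_pos {t : ℝ} (ht : t ≠ 0) : 0 < E0 t := mul_pos (Real.exp_pos _) (g0_pos ht)

theorem g0_big {t : ℝ} (ht : 1 ≤ |t|) : g0 t = t ^ 2 := by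
  unfold g0
  apply max_eq_right
  calc |t| ^ (3/4 : ℝ) ≤ |t| ^ (2 : ℝ) := Real.rpow_le_rpow_of_exponent_le ht (by norm_num)
    _ = t ^ 2 := by rw [Real.rpow_two, sq_abs]

theorem g0_small {t : ℝ} (ht : |t| ≤ 1) : g0 t = |t| ^ (3/4 : ℝ) := by
  unfold g0
  apply max_eq_left
  rcases eq_or_ne t 0 with h | h
  · rw [h]
    simp
  · calc t ^ 2 = |t| ^ (2 : ℝ) := by rw [Real.rpow_two, sq_abs]
      _ ≤ |t| ^ (3/4 : ℝ) := Real.rpow_le_rpow_of_exponent_ge (abs_pos.mpr h) ht (by norm_num)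

theorem exp_div_E0 (q t : ℝ) : Real.exp ((q + 2) * t) / E0 t = Real.exp (q * t - max (3/2 * t) (3 * t)) / g0 t := by
  unfold E0
  rw [← div_div, ← Real.exp_sub]
  congr 2
  ring

/-- divergence for q > 3 or q < 3/2 -/
theorem lint_top {q : ℝ} (hq : q < 3/2 ∨ 3 < q) :
    ∫⁻ t : ℝ, ENNReal.ofReal (Real.exp ((q + 2) * t) * (1 / (4 * E0 t)) ^ (0 + 1)) = ∞ := by
  have hform : ∀ t : ℝ, Real.exp ((q + 2) * t) * (1 / (4 * E0 t)) ^ (0 + 1) =
      Real.exp (q * t - max (3/2 * t) (3 * t)) / g0 t / 4 := by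
    intro t
    rw [← exp_div_E0, zero_add, pow_one]
    field_simp
  simp_rw [hform]
  -- key bound
  have key : ∀ δ x : ℝ, 0 < δ → 1 ≤ x → 24 / δ ^ 3 ≤ x → 1 ≤ Real.exp (δ * x) / x ^ 2 / 4 := by
    intro δ x hδ hx1 hx
    have h1 := Real.pow_div_factorial_le_exp (x := δ * x) (by positivity) 3
    have h2 : (Nat.factorial 3 : ℝ) = 6 := by norm_num [Nat.factorial]
    rw [h2] at h1
    rw [le_div_iff₀ (by norm_num), le_div_iff₀ (by positivity)]
    have h3 : 24 ≤ x * δ ^ 3 := by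
      rwa [div_le_iff₀ (by positivity)] at hx
    calc 1 * 4 * x ^ 2 = 24 * x ^ 2 / 6 := by ring
      _ ≤ (x * δ ^ 3) * x ^ 2 / 6 := by gcongr
      _ = (δ * x) ^ 3 / 6 := by ring
      _ ≤ _ := h1
  rcases hq with hq | hq
  · set δ := 3/2 - q with hδ
    have hδ0 : 0 < δ := by linarith
    set T := max 1 (24 / δ ^ 3) with hT
    have h1 : ∫⁻ t in Iic (-T), (1 : ℝ≥0∞) ≤ ∫⁻ t in Iic (-T), ENNReal.ofReal (Real.exp (q * t - max (3/2 * t) (3 * t)) / g0 t / 4) := by
      apply setLIntegral_mono' measurableSet_Iic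
      intro t ht
      have ht' : t ≤ -T := ht
      have hT1 : 1 ≤ T := le_max_left _ _
      have hT2 : 24 / δ ^ 3 ≤ T := le_max_right _ _
      have hk := key δ (-t) hδ0 (by linarith) (by linarith)
      rw [show (1:ℝ≥0∞) = ENNReal.ofReal 1 by simp]
      apply ENNReal.ofReal_le_ofReal
      rw [g0_big (by rw [abs_of_neg (by linarith)]; linarith), max_eq_left (by linarith)]
      convert hk using 3
      · congr 1
        rw [hδ]; ring
      · ring
    rw [setLIntegral_one, Real.volume_Iic, top_le_iff] at h1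
    rw [← top_le_iff, ← h1]
    exact setLIntegral_le_lintegral _ _
  · set δ := q - 3 with hδ
    have hδ0 : 0 < δ := by linarith
    set T := max 1 (24 / δ ^ 3) with hT
    have h1 : ∫⁻ t in Ici T, (1 : ℝ≥0∞) ≤ ∫⁻ t in Ici T, ENNReal.ofReal (Real.exp (q * t - max (3/2 * t) (3 * t)) / g0 t / 4) := by
      apply setLIntegral_mono' measurableSet_Ici
      intro t ht
      have ht' : T ≤ t := ht
      have hT1 : 1 ≤ T := le_max_left _ _
      have hT2 : 24 / δ ^ 3 ≤ T := le_max_right _ _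
      have hk := key δ t hδ0 (by linarith) (by linarith)
      rw [show (1:ℝ≥0∞) = ENNReal.ofReal 1 by simp]
      apply ENNReal.ofReal_le_ofReal
      rw [g0_big (by rw [abs_of_pos (by linarith)]; linarith), max_eq_right (by linarith)]
      convert hk using 3
      congr 1
      rw [hδ]; ring
    rw [setLIntegral_one, Real.volume_Ici, top_le_iff] at h1
    rw [← top_le_iff, ← h1]
    exact setLIntegral_le_lintegral _ _

/-- divergence for j ≥ 1 -/
theorem lint_top' (j : ℕ) (hj : 1 ≤ j) (q : ℝ) :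
    ∫⁻ t : ℝ, ENNReal.ofReal (Real.exp ((q + 2) * t) * (1 / (4 * E0 t)) ^ (j + 1)) = ∞ := by
  set M : ℝ := 4 * Real.exp 5 with hM
  have hM0 : 0 < M := by positivity
  set c : ℝ := Real.exp (-|q + 2|) * (1 / M) ^ (j + 1) with hc
  have hc0 : 0 < c := by positivity
  have hpt : ∀ t : ℝ, t ∈ Ioo (0:ℝ) 1 → c * t ^ (-(3/2) : ℝ) ≤ Real.exp ((q + 2) * t) * (1 / (4 * E0 t)) ^ (j + 1) := by
    intro t ht
    have ht0 : 0 < t := ht.1
    have ht1 : t < 1 := ht.2
    have h1 : Real.exp (-|q + 2|) ≤ Real.exp ((q + 2) * t) := by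
      apply Real.exp_le_exp.mpr
      have := neg_abs_le (q + 2)
      have h2 := abs_nonneg (q + 2)
      nlinarith
    have hE : E0 t ≤ Real.exp 5 * t ^ (3/4 : ℝ) := by
      unfold E0
      rw [g0_small (by rw [abs_of_pos ht0]; exact ht1.le), abs_of_pos ht0, max_eq_right (by linarith)]
      gcongr
      linarith
    have hE1 : 0 < E0 t := E0_pos ht0.ne'
    have hpos : 0 < t ^ (3/4 : ℝ) := Real.rpow_pos_of_pos ht0 _
    have hle1 : t ^ (3/4 : ℝ) ≤ 1 := Real.rpow_le_one ht0.le ht1.le (by norm_num)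
    have h3 : 1 / M * (1 / t ^ (3/4 : ℝ)) ≤ 1 / (4 * E0 t) := by
      rw [div_mul_div_comm, one_mul]
      apply one_div_le_one_div_of_le (by positivity)
      rw [hM]
      nlinarith
    have h4 : t ^ (-(3/2) : ℝ) ≤ (1 / t ^ (3/4 : ℝ)) ^ (j + 1) := by
      have h5 : (1 / t ^ (3/4 : ℝ)) ^ 2 = t ^ (-(3/2) : ℝ) := by
        rw [one_div, ← Real.rpow_neg ht0.le, ← Real.rpow_natCast, ← Real.rpow_mul ht0.le]
        norm_num
      rw [← h5]
      apply pow_le_pow_right₀
      · rw [le_div_iff₀ hpos]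
        linarith
      · omega
    calc c * t ^ (-(3/2) : ℝ) ≤ c * (1 / t ^ (3/4 : ℝ)) ^ (j + 1) := by gcongr
      _ = Real.exp (-|q + 2|) * (1 / M * (1 / t ^ (3/4 : ℝ))) ^ (j + 1) := by
          rw [hc, mul_pow]; ring
      _ ≤ _ := by gcongr
  have hnot : ¬ IntegrableOn (fun t : ℝ => t ^ (-(3/2) : ℝ)) (Ioo 0 1) := by
    rw [intervalIntegral.integrableOn_Ioo_rpow_iff one_pos]
    norm_num
  have hlint : ∫⁻ t in Ioo (0:ℝ) 1, ENNReal.ofReal (t ^ (-(3/2) : ℝ)) = ∞ := by
    by_contra hfin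
    apply hnot
    refine ⟨?_, ?_⟩
    · exact (by fun_prop : Measurable (fun t : ℝ => t ^ (-(3/2) : ℝ))).aestronglyMeasurable
    · rw [hasFiniteIntegral_iff_ofReal]
      · exact lt_top_iff_ne_top.mpr hfin
      · rw [Filter.EventuallyLE, ae_restrict_iff' measurableSet_Ioo]
        exact Filter.Eventually.of_forall (fun t ht => Real.rpow_nonneg ht.1.le _)
  have h1 : ENNReal.ofReal c * ∫⁻ t in Ioo (0:ℝ) 1, ENNReal.ofReal (t ^ (-(3/2) : ℝ)) ≤
      ∫⁻ t in Ioo (0:ℝ) 1, ENNReal.ofReal (Real.exp ((q + 2) * t) * (1 / (4 * E0 t)) ^ (j + 1)) := by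
    rw [← lintegral_const_mul' _ _ ENNReal.ofReal_ne_top]
    apply setLIntegral_mono' measurableSet_Ioo
    intro t ht
    rw [← ENNReal.ofReal_mul hc0.le]
    exact ENNReal.ofReal_le_ofReal (hpt t ht)
  rw [hlint, ENNReal.mul_top (by simpa using hc0)] at h1
  rw [← top_le_iff]
  exact h1.trans (setLIntegral_le_lintegral _ _)

theorem g0_int : ∫⁻ t : ℝ, ENNReal.ofReal (1 / g0 t) ≠ ∞ := by
  set F : ℝ → ℝ≥0∞ := fun t => ENNReal.ofReal (1 / g0 t) with hF
  have heven : ∀ t, F (-t) = F t := by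
    intro t
    simp [F, g0]
  have hmeasF : Measurable F := by
    apply ENNReal.measurable_ofReal.comp
    exact measurable_const.div g0_cont.measurable
  have h1 : ∫⁻ t, F t ≤ ∫⁻ t, ((Ici (0:ℝ)).indicator F t + (Ici (0:ℝ)).indicator F (-t)) := by
    apply lintegral_mono
    intro t
    show F t ≤ (Ici (0:ℝ)).indicator F t + (Ici (0:ℝ)).indicator F (-t)
    rcases le_total 0 t with h | h
    · rw [indicator_of_mem (by exact h)]
      exact le_self_add
    · have : (Ici (0:ℝ)).indicator F (-t) = F t := by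
        rw [indicator_of_mem (by simpa using h), heven]
      rw [this]
      exact le_add_self
  have hmi : Measurable ((Ici (0:ℝ)).indicator F) := hmeasF.indicator measurableSet_Ici
  rw [lintegral_add_left hmi, lintegral_neg_eq_self] at h1
  have h2 : ∫⁻ t, (Ici (0:ℝ)).indicator F t ≠ ∞ := by
    rw [lintegral_indicator measurableSet_Ici, setLIntegral_congr Ioi_ae_eq_Ici.symm]
    have hsplit : Ioi (0:ℝ) ⊆ Ioo 0 1 ∪ Ici 1 := by
      intro t ht
      have ht : 0 < t := ht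
      rcases lt_or_ge t 1 with h | h
      · exact Or.inl ⟨ht, h⟩
      · exact Or.inr h
    have ha : ∫⁻ t in Ioo (0:ℝ) 1, F t ≠ ∞ := by
      have hint : IntegrableOn (fun t : ℝ => t ^ (-(3/4) : ℝ)) (Ioo 0 1) := by
        rw [intervalIntegral.integrableOn_Ioo_rpow_iff one_pos]
        norm_num
      have hcong : ∫⁻ t in Ioo (0:ℝ) 1, F t = ∫⁻ t in Ioo (0:ℝ) 1, ENNReal.ofReal (t ^ (-(3/4) : ℝ)) := by
        apply setLIntegral_congr_fun measurableSet_Ioo
        intro t ht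
        simp only [F]
        rw [g0_small (by rw [abs_of_pos ht.1]; exact ht.2.le), abs_of_pos ht.1, Real.rpow_neg ht.1.le, one_div]
      rw [hcong]
      have h5 := hint.2
      rw [hasFiniteIntegral_iff_ofReal] at h5
      · exact h5.ne
      · rw [Filter.EventuallyLE, ae_restrict_iff' measurableSet_Ioo]
        exact Filter.Eventually.of_forall (fun t ht => Real.rpow_nonneg ht.1.le _)
    have hb : ∫⁻ t in Ici (1:ℝ), F t ≠ ∞ := by
      rw [setLIntegral_congr Ioi_ae_eq_Ici.symm]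
      have hint : IntegrableOn (fun t : ℝ => t ^ (-2 : ℝ)) (Ioi 1) :=
        integrableOn_Ioi_rpow_of_lt (by norm_num) one_pos
      have hcong : ∫⁻ t in Ioi (1:ℝ), F t = ∫⁻ t in Ioi (1:ℝ), ENNReal.ofReal (t ^ (-2 : ℝ)) := by
        apply setLIntegral_congr_fun measurableSet_Ioi
        intro t ht
        have ht : 1 < t := ht
        have ht0 : 0 < t := by linarith
        simp only [F]
        rw [g0_big (by rw [abs_of_pos ht0]; exact ht.le), Real.rpow_neg ht0.le, one_div, Real.rpow_two]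
      rw [hcong]
      have h5 := hint.2
      rw [hasFiniteIntegral_iff_ofReal] at h5
      · exact h5.ne
      · rw [Filter.EventuallyLE, ae_restrict_iff' measurableSet_Ioi]
        exact Filter.Eventually.of_forall (fun t ht => Real.rpow_nonneg (by have : (1:ℝ) < t := ht; linarith) _)
    have h3 : ∫⁻ t in Ioi (0:ℝ), F t ≤ (∫⁻ t in Ioo (0:ℝ) 1, F t) + ∫⁻ t in Ici (1:ℝ), F t := by
      refine (lintegral_mono_set hsplit).trans ?_
      have h4 := lintegral_union_le (μ := volume) F (Ioo (0:ℝ) 1) (Ici (1:ℝ))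
      exact h4
    exact ne_top_of_le_ne_top (ENNReal.add_ne_top.mpr ⟨ha, hb⟩) h3
  exact ne_top_of_le_ne_top (ENNReal.add_ne_top.mpr ⟨h2, h2⟩) h1

theorem lint_fin {q : ℝ} (h1 : 3/2 ≤ q) (h2 : q ≤ 3) :
    ∫⁻ t : ℝ, ENNReal.ofReal (Real.exp ((q + 2) * t) / E0 t) ≠ ∞ := by
  refine ne_top_of_le_ne_top g0_int ?_
  apply lintegral_mono
  intro t
  apply ENNReal.ofReal_le_ofReal
  rw [exp_div_E0]
  have h3 : q * t - max (3/2 * t) (3 * t) ≤ 0 := by
    rcases le_total 0 t with h | h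
    · have := le_max_right (3/2 * t) (3 * t)
      nlinarith
    · have := le_max_left (3/2 * t) (3 * t)
      nlinarith
  have h4 : Real.exp (q * t - max (3/2 * t) (3 * t)) ≤ 1 := Real.exp_le_one_iff.mpr h3
  have := g0_nonneg t
  gcongr

end Pool.Agent.H788R3
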