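import Mathlib
import Pool.Agent.H788R3.Explicit

set_option autoImplicit false
open MeasureTheory Set Metric Complex
open scoped Real ENNReal Topology

namespace Pool.Agent.H788R3

variable {E : ℝ → ℝ} {H : ℂ → ℂ → ℂ}

theorem inner_cont (hc : ContinuousOn (fun p : ℂ × ℂ => H p.1 p.2) (U E)) {r ρ : ℝ} (hr : 0 < r) (hρ : 0 < ρ)
    (h : r ^ 2 * E (Real.log ρ) < 1) (j : ℤ) :
    ContinuousOn (fun w => ∮ z in C(0, r), z ^ (-j-1) * H z w) (sphere 0 ρ) := by
  rw [continuousOn_iff_continuous_domRestrict]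
  have : (sphere (0:ℂ) ρ).domRestrict (fun w => ∮ z in C(0, r), z ^ (-j-1) * H z w) =
      fun w : sphere (0:ℂ) ρ => ∫ θ in (0:ℝ)..2 * π, (fun (w : sphere (0:ℂ) ρ) (θ : ℝ) => deriv (circleMap 0 r) θ •
        ((circleMap 0 r θ) ^ (-j-1) * H (circleMap 0 r θ) w)) w θ := by
    ext w
    rfl
  rw [this]
  apply intervalIntegral.continuous_parametric_intervalIntegral_of_continuous'
  have hh : Continuous (fun q : sphere (0:ℂ) ρ × ℝ => H (circleMap 0 r q.2) q.1) := by
    have : Continuous (fun q : sphere (0:ℂ) ρ × ℝ => ((circleMap 0 r q.2, (q.1 : ℂ)) : ℂ × ℂ)) :=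
      ((continuous_circleMap 0 r).comp continuous_snd).prodMk (continuous_subtype_val.comp continuous_fst)
    refine hc.comp_continuous this (fun q => mem_U_circle hr.le hρ h (norm_circleMap' hr.le _) ?_)
    simp
  exact ((cont_deriv_circle r).comp continuous_snd).smul
    (((cont_zpow_circle hr (-j-1)).comp continuous_snd).mul hh)

theorem zpow_int {r : ℝ} (hr : 0 < r) (n : ℤ) : (∮ z in C(0, r), z ^ n) = if n = -1 then 2 * π * I else 0 := by
  split_ifs with h
  · rw [h]
    have := circleIntegral.integral_sub_center_inv (0:ℂ) hr.ne'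
    simpa using this
  · have := circleIntegral.integral_sub_zpow_of_ne h (0:ℂ) (0:ℂ) r
    simpa using this

theorem circle_single {r : ℝ} (hr : 0 < r) {f : ℂ → ℂ} (hf : ContinuousOn f (sphere 0 r)) (m : ℤ)
    (h : ∀ j : ℤ, j ≠ m → (∮ z in C(0, r), z ^ (-j-1) * f z) = 0) :
    ∀ z ∈ sphere (0:ℂ) r, f z = ((∮ z in C(0, r), z ^ (-m-1) * f z) / (2 * π * I)) * z ^ m := by
  set c := (∮ z in C(0, r), z ^ (-m-1) * f z) / (2 * π * I) with hc
  have hne : ∀ z ∈ sphere (0:ℂ) r, z ≠ 0 := by
    intro z hz h0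
    rw [h0] at hz
    simp at hz
    linarith
  have hzc : ∀ n : ℤ, ContinuousOn (fun z : ℂ => z ^ n) (sphere 0 r) := by
    intro n z hz
    exact (continuousAt_zpow₀ z n (Or.inl (hne z hz))).continuousWithinAt
  have key := circle_unique hr (f := fun z => f z - c * z ^ m) (hf.sub (continuousOn_const.mul (hzc m))) (by
    intro j
    have h1 : (∮ z in C(0, r), z ^ (-j-1) * (f z - c * z ^ m)) =
        (∮ z in C(0, r), z ^ (-j-1) * f z) - c * ∮ z in C(0, r), z ^ (m - j - 1) := by
      rw [← circleIntegral.integral_const_mul, ← circleIntegral.integral_sub]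
      · apply circleIntegral.integral_congr hr.le
        intro z hz
        have hz0 := hne z hz
        simp only
        have : z ^ (m - j - 1) = z ^ (-j-1) * z ^ m := by
          rw [← zpow_add₀ hz0]
          congr 1
          ring
        rw [this]
        ring
      · apply ContinuousOn.circleIntegrable hr.le
        exact (hzc _).mul hf
      · apply ContinuousOn.circleIntegrable hr.le
        exact continuousOn_const.mul (hzc _)
    rw [h1, zpow_int hr]
    by_cases hj : j = m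
    · rw [hj, if_pos (by ring), hc]
      field_simp
      ring
    · rw [if_neg (by omega), h j hj]
      ring)
  intro z hz
  exact sub_eq_zero.mp (key z hz)

theorem classify (hc : ContinuousOn (fun p : ℂ × ℂ => H p.1 p.2) (U E0))
    (hz : ∀ z w, (z, w) ∈ U E0 → DifferentiableAt ℂ (fun z => H z w) z)
    (hw : ∀ z w, (z, w) ∈ U E0 → DifferentiableAt ℂ (fun w => H z w) w)
    (hfin : ∫⁻ p in U E0, ‖H p.1 p.2‖ₑ ^ 2 ≠ ∞) : ∃ c : ℂ, ∀ z w, (z, w) ∈ U E0 → H z w = c * w := by
  have h00 : (1:ℝ) ^ 2 * E0 (Real.log 1) < 1 := by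
    simp [E0, g0]
  have hconst : ∀ (j k : ℤ) (r ρ : ℝ), 0 < r → 0 < ρ → r ^ 2 * E0 (Real.log ρ) < 1 →
      K2 H j k r ρ = K2 H j k 1 1 := by
    intro j k r ρ hr hρ h
    exact K2_const hc hz hw E0_cont E0_nonneg hr hρ h one_pos one_pos h00 j k
  have hzero : ∀ (j k : ℤ), ¬ (j = 0 ∧ k = 1) → K2 H j k 1 1 = 0 := by
    intro j k hjk
    rcases lt_or_ge j 0 with hj | hj
    · exact K2_neg hz E0_nonneg one_pos one_pos h00 hj k
    · obtain ⟨n, rfl⟩ : ∃ n : ℕ, j = n := ⟨j.toNat, by omega⟩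
      apply kappa_zero E0_cont hc n k _ (hconst n k) hfin
      rw [← top_le_iff]
      refine le_trans ?_ (J_ge E0_nonneg n k)
      rw [top_le_iff]
      rcases Nat.eq_zero_or_pos n with hn | hn
      · subst hn
        apply lint_top
        have hk : k ≠ 1 := by
          intro h
          exact hjk ⟨rfl, h⟩
        rcases lt_or_gt_of_ne hk with h | h
        · left
          have : k ≤ 0 := by omega
          have : (k:ℝ) ≤ 0 := by exact_mod_cast this
          linarith
        · right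
          have : 2 ≤ k := by omega
          have : (2:ℝ) ≤ k := by exact_mod_cast this
          linarith
      · exact lint_top' n hn _
  refine ⟨K2 H 0 1 1 1 / (2 * π * I) / (2 * π * I), ?_⟩
  have main : ∀ z w, (z, w) ∈ U E0 → z ≠ 0 → H z w = K2 H 0 1 1 1 / (2 * π * I) / (2 * π * I) * w := by
    intro z w hmem hz0
    set r := ‖z‖ with hr
    set ρ := ‖w‖ with hρ
    have hr0 : 0 < r := norm_pos_iff.mpr hz0
    have hρ0 : 0 < ρ := norm_pos_iff.mpr hmem.1
    have hgood : r ^ 2 * E0 (Real.log ρ) < 1 := hmem.2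
    have hws : w ∈ sphere (0:ℂ) ρ := by simp [hρ]
    have hzs : z ∈ sphere (0:ℂ) r := by simp [hr]
    have hf0 := circle_single hρ0 (inner_cont hc hr0 hρ0 hgood 0) 1 (by
      intro k hk
      have h1 := hconst 0 k r ρ hr0 hρ0 hgood
      rw [hzero 0 k (by tauto)] at h1
      exact h1) w hws
    have hfj : ∀ j : ℤ, j ≠ 0 → (∮ z in C(0, r), z ^ (-j-1) * H z w) = 0 := by
      intro j hj
      exact circle_unique hρ0 (inner_cont hc hr0 hρ0 hgood j) (by
        intro k
        have h1 := hconst j k r ρ hr0 hρ0 hgood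
        rw [hzero j k (by tauto)] at h1
        exact h1) w hws
    have hcontz : ContinuousOn (fun z => H z w) (sphere (0:ℂ) r) := by
      have h3 : ContinuousOn (fun z : ℂ => (z, w)) (sphere (0:ℂ) r) := by fun_prop
      refine hc.comp h3 ?_
      intro y hy
      exact mem_U_circle hr0.le hρ0 hgood (by simpa using hy) rfl
    have hH := circle_single hr0 hcontz 0 hfj z hzs
    have hK : (∮ w in C(0, ρ), w ^ (-(1:ℤ)-1) * ∮ z in C(0, r), z ^ (-(0:ℤ)-1) * H z w) = K2 H 0 1 1 1 :=
      hconst 0 1 r ρ hr0 hρ0 hgood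
    rw [hK] at hf0
    rw [hf0] at hH
    rw [hH]
    simp only [zpow_zero, zpow_one, mul_one]
    ring
  intro z w hmem
  rcases eq_or_ne z 0 with h0 | h0
  · subst h0
    have hcont := (hz 0 w hmem).continuousAt
    have ht1 : Filter.Tendsto (fun z => H z w) (𝓝[≠] 0) (𝓝 (H 0 w)) := hcont.tendsto.mono_left nhdsWithin_le_nhds
    have hopen : IsOpen {z : ℂ | (z, w) ∈ U E0} := (U_open E0_cont).preimage (by fun_prop : Continuous (fun z : ℂ => (z, w)))
    have hev : ∀ᶠ z in 𝓝[≠] (0:ℂ), H z w = K2 H 0 1 1 1 / (2 * π * I) / (2 * π * I) * w := by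
      have h1 : ∀ᶠ z in 𝓝[≠] (0:ℂ), (z, w) ∈ U E0 := nhdsWithin_le_nhds (hopen.mem_nhds hmem)
      filter_upwards [h1, self_mem_nhdsWithin] with z h2 h3
      exact main z w h2 h3
    have ht2 : Filter.Tendsto (fun z => H z w) (𝓝[≠] 0) (𝓝 (K2 H 0 1 1 1 / (2 * π * I) / (2 * π * I) * w)) := by
      refine Filter.Tendsto.congr' (f₁ := fun _ => K2 H 0 1 1 1 / (2 * π * I) / (2 * π * I) * w) ?_ tendsto_const_nhds
      filter_upwards [hev] with z hz
      exact hz.symm
    exact tendsto_nhds_unique ht1 ht2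
  · exact main z w hmem h0

end Pool.Agent.H788R3
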