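import Mathlib
import Pool.Agent.H788R3.Classify

set_option autoImplicit false
open MeasureTheory Set Metric Complex
open scoped Real ENNReal Topology

namespace Pool.Agent.H788R3

variable {E : ℝ → ℝ}

noncomputable def S (E : ℝ → ℝ) (q : ℝ) : ℝ≥0∞ := ∫⁻ p in U E, ENNReal.ofReal (‖p.2‖ ^ q)

theorem S_polar (hE : Continuous E) (q : ℝ) : S E q = ENNReal.ofReal (2 * π) * ENNReal.ofReal (2 * π) *
    ∫⁻ ρ in Ioi (0:ℝ), ∫⁻ r in {r : ℝ | 0 < r ∧ r ^ 2 * E (Real.log ρ) < 1},
      ENNReal.ofReal ρ * ENNReal.ofReal r * ENNReal.ofReal (ρ ^ q) := by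
  set F : ℂ × ℂ → ℝ≥0∞ := (U E).indicator (fun p => ENNReal.ofReal (‖p.2‖ ^ q)) with hFdef
  have hF : Measurable F := by
    apply Measurable.indicator _ (U_open hE).measurableSet
    fun_prop
  have h1 : S E q = ∫⁻ p, F p := by
    rw [S, ← lintegral_indicator (U_open hE).measurableSet]
  rw [h1, polar2 F hF]
  rw [← lintegral_const_mul' _ _ (by finiteness)]
  apply setLIntegral_congr_fun measurableSet_Ioi
  intro ρ hρ
  have hρ : 0 < ρ := hρ
  simp only
  rw [← lintegral_const_mul' _ _ (by finiteness)]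
  have hms : MeasurableSet {r : ℝ | 0 < r ∧ r ^ 2 * E (Real.log ρ) < 1} := by
    apply MeasurableSet.inter measurableSet_Ioi
    have : Measurable (fun r : ℝ => r ^ 2 * E (Real.log ρ)) := by fun_prop
    exact this measurableSet_Iio
  rw [← lintegral_indicator measurableSet_Ioi, ← lintegral_indicator hms]
  congr 1
  ext r
  by_cases hr0 : 0 < r
  · rw [indicator_of_mem (by exact hr0)]
    by_cases hr1 : r ^ 2 * E (Real.log ρ) < 1
    · rw [indicator_of_mem (by exact ⟨hr0, hr1⟩)]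
      have h3 : ∀ θ φ : ℝ, F (circleMap 0 r θ, circleMap 0 ρ φ) = ENNReal.ofReal (ρ ^ q) := by
        intro θ φ
        have hmem := mem_U_circle hr0.le hρ hr1 (norm_circleMap' hr0.le θ) (norm_circleMap' hρ.le φ)
        simp only [F, indicator_of_mem hmem, norm_circleMap' hρ.le φ]
      simp_rw [h3]
      rw [setLIntegral_const, setLIntegral_const, Real.volume_Ioo, show π - -π = 2 * π by ring]
      ring
    · rw [indicator_of_notMem (by intro h; exact hr1 h.2)]
      have h3 : ∀ θ φ : ℝ, F (circleMap 0 r θ, circleMap 0 ρ φ) = 0 := by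
        intro θ φ
        apply indicator_of_notMem
        intro h
        have h2 := h.2
        simp only [norm_circleMap' hr0.le θ, norm_circleMap' hρ.le φ] at h2
        exact hr1 h2
      simp_rw [h3]
      simp
  · rw [indicator_of_notMem (by intro h; exact hr0 h), indicator_of_notMem (by intro h; exact hr0 h.1)]

theorem S_ge (hE : Continuous E) (hE0 : ∀ t, 0 ≤ E t) (q : ℝ) :
    ENNReal.ofReal (2 * π) * ENNReal.ofReal (2 * π) *
    ∫⁻ t : ℝ, ENNReal.ofReal (Real.exp ((q + 2) * t) * (1 / (4 * E t)) ^ (0 + 1)) ≤ S E q := by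
  rw [S_polar hE, exp_subst]
  refine mul_le_mul' le_rfl ?_
  apply lintegral_mono
  intro t
  simp only [Real.log_exp]
  rcases (hE0 t).eq_or_lt with h0 | h0
  · rw [← h0]
    simp
  · set c := E t with hc
    set R := 1 / Real.sqrt c with hR
    have hsc : 0 < Real.sqrt c := Real.sqrt_pos.mpr h0
    have hR0 : 0 < R := by positivity
    have hR2 : R ^ 2 = 1 / c := by
      rw [hR, div_pow, Real.sq_sqrt h0.le, one_pow]
    have hsub : Ioo (R / 2) R ⊆ {r : ℝ | 0 < r ∧ r ^ 2 * c < 1} := by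
      intro r hr
      have h1 : 0 < r := by linarith [hr.1]
      refine ⟨h1, ?_⟩
      have : r ^ 2 < R ^ 2 := by nlinarith [hr.2]
      calc r ^ 2 * c < R ^ 2 * c := by gcongr
        _ = 1 := by rw [hR2]; field_simp
    have hstep : ENNReal.ofReal (Real.exp t) * ∫⁻ r in Ioo (R / 2) R, (ENNReal.ofReal (Real.exp t) * ENNReal.ofReal r *
        ENNReal.ofReal ((Real.exp t) ^ q)) ≤ ENNReal.ofReal (Real.exp t) * ∫⁻ r in {r : ℝ | 0 < r ∧ r ^ 2 * c < 1},
        (ENNReal.ofReal (Real.exp t) * ENNReal.ofReal r * ENNReal.ofReal ((Real.exp t) ^ q)) := by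
      gcongr
    refine le_trans ?_ hstep
    have hconst : ∀ r ∈ Ioo (R / 2) R, ENNReal.ofReal (Real.exp t) * ENNReal.ofReal (R / 2) *
        ENNReal.ofReal ((Real.exp t) ^ q) ≤
        ENNReal.ofReal (Real.exp t) * ENNReal.ofReal r * ENNReal.ofReal ((Real.exp t) ^ q) := by
      intro r hr
      have h1 : R / 2 ≤ r := hr.1.le
      gcongr
    have hstep2 : ENNReal.ofReal (Real.exp t) * ∫⁻ _r in Ioo (R / 2) R, (ENNReal.ofReal (Real.exp t) * ENNReal.ofReal (R / 2) *
        ENNReal.ofReal ((Real.exp t) ^ q)) ≤ ENNReal.ofReal (Real.exp t) * ∫⁻ r in Ioo (R / 2) R, (ENNReal.ofReal (Real.exp t) * ENNReal.ofReal r *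
        ENNReal.ofReal ((Real.exp t) ^ q)) := by
      exact mul_le_mul' le_rfl (setLIntegral_mono' measurableSet_Ioo hconst)
    refine le_trans ?_ hstep2
    rw [setLIntegral_const, Real.volume_Ioo]
    have hRR : R - R / 2 = R / 2 := by ring
    rw [hRR]
    rw [← ENNReal.ofReal_mul (by positivity), ← ENNReal.ofReal_mul (by positivity), ← ENNReal.ofReal_mul (by positivity),
      ← ENNReal.ofReal_mul (by positivity)]
    apply ENNReal.ofReal_le_ofReal
    apply le_of_eq
    have e1 : (1 / (4 * c)) ^ (0 + 1) = (R / 2) * (R / 2) := by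
      have : (R / 2) * (R / 2) = R ^ 2 / 4 := by ring
      rw [this, hR2]
      have hc0 : c ≠ 0 := h0.ne'
      field_simp
      norm_num
      try field_simp
    have e2 : Real.exp ((q + 2) * t) = Real.exp t * Real.exp t * (Real.exp t) ^ q := by
      rw [← Real.exp_mul, ← Real.exp_add, ← Real.exp_add]
      congr 1
      ring
    rw [e1, e2]
    ring

theorem S_le (hE : Continuous E) (hE0 : ∀ t, t ≠ 0 → 0 < E t) (q : ℝ) :
    S E q ≤ ENNReal.ofReal (2 * π) * ENNReal.ofReal (2 * π) *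
    ∫⁻ t : ℝ, ENNReal.ofReal (Real.exp ((q + 2) * t) / E t) := by
  rw [S_polar hE, exp_subst]
  refine mul_le_mul' le_rfl ?_
  apply lintegral_mono_ae
  have hae : ∀ᵐ t : ℝ, t ≠ 0 := by
    simp [ae_iff]
  filter_upwards [hae] with t ht
  simp only [Real.log_exp]
  have h0 := hE0 t ht
  set c := E t with hc
  set R := 1 / Real.sqrt c with hR
  have hsc : 0 < Real.sqrt c := Real.sqrt_pos.mpr h0
  have hR0 : 0 < R := by positivity
  have hR2 : R ^ 2 = 1 / c := by
    rw [hR, div_pow, Real.sq_sqrt h0.le, one_pow]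
  have hsub : {r : ℝ | 0 < r ∧ r ^ 2 * c < 1} ⊆ Ioo 0 R := by
    intro r hr
    refine ⟨hr.1, ?_⟩
    by_contra hcon
    push Not at hcon
    have h2 : R ^ 2 ≤ r ^ 2 := pow_le_pow_left₀ hR0.le hcon 2
    have h3 : 1 ≤ r ^ 2 * c := by
      calc 1 = R ^ 2 * c := by rw [hR2]; field_simp
        _ ≤ r ^ 2 * c := by gcongr
    linarith [hr.2]
  have hstep : ENNReal.ofReal (Real.exp t) * ∫⁻ r in {r : ℝ | 0 < r ∧ r ^ 2 * c < 1},
        (ENNReal.ofReal (Real.exp t) * ENNReal.ofReal r * ENNReal.ofReal ((Real.exp t) ^ q)) ≤ ENNReal.ofReal (Real.exp t) * ∫⁻ r in Ioo 0 R, (ENNReal.ofReal (Real.exp t) * ENNReal.ofReal r *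
        ENNReal.ofReal ((Real.exp t) ^ q)) := by
      gcongr
  refine hstep.trans ?_
  have hconst : ∀ r ∈ Ioo 0 R, ENNReal.ofReal (Real.exp t) * ENNReal.ofReal r * ENNReal.ofReal ((Real.exp t) ^ q) ≤
      ENNReal.ofReal (Real.exp t) * ENNReal.ofReal R * ENNReal.ofReal ((Real.exp t) ^ q) := by
    intro r hr
    have h1 : r ≤ R := hr.2.le
    gcongr
  have hstep2 : ENNReal.ofReal (Real.exp t) * ∫⁻ r in Ioo 0 R, (ENNReal.ofReal (Real.exp t) * ENNReal.ofReal r *
        ENNReal.ofReal ((Real.exp t) ^ q)) ≤ ENNReal.ofReal (Real.exp t) * ∫⁻ _r in Ioo 0 R, (ENNReal.ofReal (Real.exp t) * ENNReal.ofReal R *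
        ENNReal.ofReal ((Real.exp t) ^ q)) := by
      exact mul_le_mul' le_rfl (setLIntegral_mono' measurableSet_Ioo hconst)
  refine hstep2.trans ?_
  rw [setLIntegral_const, Real.volume_Ioo, sub_zero]
  rw [← ENNReal.ofReal_mul (by positivity), ← ENNReal.ofReal_mul (by positivity), ← ENNReal.ofReal_mul (by positivity),
      ← ENNReal.ofReal_mul (by positivity)]
  apply ENNReal.ofReal_le_ofReal
  apply le_of_eq
  have e2 : Real.exp ((q + 2) * t) = Real.exp t * Real.exp t * (Real.exp t) ^ q := by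
    rw [← Real.exp_mul, ← Real.exp_add, ← Real.exp_add]
    congr 1
    ring
  have e3 : Real.exp ((q + 2) * t) / c = Real.exp ((q + 2) * t) * R ^ 2 := by
    rw [hR2]; ring
  rw [e3, e2]
  ring

theorem S_top {q : ℝ} (hq : q < 3/2 ∨ 3 < q) : S E0 q = ∞ := by
  rw [← top_le_iff]
  refine le_trans ?_ (S_ge E0_cont E0_nonneg q)
  rw [lint_top hq, ENNReal.mul_top]
  have := Real.pi_pos
  simp [this]

theorem S_fin {q : ℝ} (h1 : 3/2 ≤ q) (h2 : q ≤ 3) : S E0 q ≠ ∞ := by
  refine ne_top_of_le_ne_top ?_ (S_le E0_cont (fun t ht => E0_pos ht) q)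
  have := lint_fin h1 h2
  finiteness

end Pool.Agent.H788R3
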