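import Mathlib
import Pool.Agent.H788R3.Radial

set_option autoImplicit false
open MeasureTheory Set Metric Complex
open scoped Real ENNReal Topology

namespace Pool.Agent.H788R3

/-- the domain in the space of functions on two points -/
def Om : Set (Fin 2 → ℂ) := {v | (v 0, v 1) ∈ U E0}

theorem Om_open : IsOpen Om :=
  (U_open E0_cont).preimage (by fun_prop : Continuous (fun v : Fin 2 → ℂ => (v 0, v 1)))

theorem U_conn : IsConnected (U E0) := by
  have hbase : ((0:ℂ), (1:ℂ)) ∈ U E0 := by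
    refine ⟨by simp, by simp⟩
  refine ⟨⟨_, hbase⟩, ?_⟩
  apply isPreconnected_of_forall ((0:ℂ), (1:ℂ))
  rintro ⟨z, w⟩ hp
  have hA : IsPreconnected ((fun w : ℂ => ((0:ℂ), w)) '' {0}ᶜ) := by
    apply IsPreconnected.image
    · exact (isConnected_compl_singleton_of_one_lt_rank (by simp) (0:ℂ)).isPreconnected
    · fun_prop
  have hB : IsPreconnected ((fun s : ℝ => ((s:ℂ) * z, w)) '' Icc 0 1) := by
    apply IsPreconnected.image isPreconnected_Icc
    fun_prop
  refine ⟨((fun w : ℂ => ((0:ℂ), w)) '' {0}ᶜ) ∪ ((fun s : ℝ => ((s:ℂ) * z, w)) '' Icc 0 1), ?_, ?_, ?_, ?_⟩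
  · rintro p (⟨w', hw', rfl⟩ | ⟨s, hs, rfl⟩)
    · refine ⟨by simpa using hw', by simp⟩
    · refine ⟨hp.1, ?_⟩
      have h1 : ‖z‖ ^ 2 * E0 (Real.log ‖w‖) < 1 := hp.2
      simp only [norm_mul, Complex.norm_real, Real.norm_eq_abs, abs_of_nonneg hs.1]
      have h2 : (s * ‖z‖) ^ 2 ≤ ‖z‖ ^ 2 := by
        apply pow_le_pow_left₀ (mul_nonneg hs.1 (norm_nonneg _))
        calc s * ‖z‖ ≤ 1 * ‖z‖ := by gcongr; exact hs.2
          _ = ‖z‖ := one_mul _
      have h3 := E0_nonneg (Real.log ‖w‖)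
      calc (s * ‖z‖) ^ 2 * E0 (Real.log ‖w‖) ≤ ‖z‖ ^ 2 * E0 (Real.log ‖w‖) := by gcongr
        _ < 1 := h1
  · left
    exact ⟨1, by simp, rfl⟩
  · right
    exact ⟨1, by simp, by simp⟩
  · apply IsPreconnected.union ((0:ℂ), w) ?_ ?_ hA hB
    · exact ⟨w, by simpa using hp.1, rfl⟩
    · exact ⟨0, by simp, by simp⟩

theorem Om_conn : IsConnected Om := by
  have h : Om = (fun p : ℂ × ℂ => ![p.1, p.2]) '' (U E0) := by
    ext v
    constructor
    · intro hv
      refine ⟨(v 0, v 1), hv, ?_⟩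
      ext i
      fin_cases i <;> simp
    · rintro ⟨p, hp, rfl⟩
      show (![p.1, p.2] 0, ![p.1, p.2] 1) ∈ U E0
      simpa using hp
  rw [h]
  apply U_conn.image
  apply Continuous.continuousOn
  refine continuous_pi (fun i => ?_)
  fin_cases i
  · exact continuous_fst
  · exact continuous_snd

theorem transfer (F : ℂ × ℂ → ℝ≥0∞) : ∫⁻ v in Om, F (v 0, v 1) = ∫⁻ p in U E0, F p := by
  have h := (volume_preserving_finTwoArrow ℂ).setLIntegral_comp_preimage_emb
    (MeasurableEquiv.measurableEmbedding _) F (U E0)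
  exact h

theorem eLp (q : ℝ) (hq : 0 < q) : (∫⁻ v in Om, ‖v 1‖ₑ ^ q) = S E0 q := by
  rw [S, ← transfer]
  congr 1
  ext v
  rw [← ofReal_norm, ENNReal.ofReal_rpow_of_nonneg (norm_nonneg _) hq.le]

theorem f0_meas : AEStronglyMeasurable (fun v : Fin 2 → ℂ => v 1) (volume.restrict Om) :=
  (continuous_apply 1).aestronglyMeasurable

theorem f0_memLp {q : ℝ} (hq0 : 0 < q) (h1 : 3/2 ≤ q) (h2 : q ≤ 3) :
    MemLp (fun v : Fin 2 → ℂ => v 1) (ENNReal.ofReal q) (volume.restrict Om) := by
  refine ⟨f0_meas, ?_⟩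
  rw [eLpNorm_lt_top_iff_lintegral_rpow_enorm_lt_top (by simpa using hq0) ENNReal.ofReal_ne_top,
    ENNReal.toReal_ofReal hq0.le]
  rw [eLp q hq0]
  exact lt_top_iff_ne_top.mpr (S_fin h1 h2)

theorem f0_top {q : ℝ} (hq0 : 0 < q) (h : q < 3/2 ∨ 3 < q) :
    eLpNorm (fun v : Fin 2 → ℂ => v 1) (ENNReal.ofReal q) (volume.restrict Om) = ∞ := by
  by_contra hne
  have h1 : eLpNorm (fun v : Fin 2 → ℂ => v 1) (ENNReal.ofReal q) (volume.restrict Om) < ∞ := lt_top_iff_ne_top.mpr hne
  rw [eLpNorm_lt_top_iff_lintegral_rpow_enorm_lt_top (by simpa using hq0) ENNReal.ofReal_ne_top,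
    ENNReal.toReal_ofReal hq0.le, eLp q hq0, S_top h] at h1
  exact lt_irrefl _ h1

theorem f0_mem2 : MemLp (fun v : Fin 2 → ℂ => v 1) 2 (volume.restrict Om) := by
  have := f0_memLp (q := 2) (by norm_num) (by norm_num) (by norm_num)
  simpa using this

theorem classify' (h : (Fin 2 → ℂ) → ℂ) (hd : DifferentiableOn ℂ h Om) (hm : MemLp h 2 (volume.restrict Om)) :
    ∃ c : ℂ, ∀ v ∈ Om, h v = c * v 1 := by
  have hmap : ∀ p ∈ U E0, ![p.1, p.2] ∈ Om := by
    intro p hp
    show (![p.1, p.2] 0, ![p.1, p.2] 1) ∈ U E0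
    simpa using hp
  have hcontmap : Continuous (fun p : ℂ × ℂ => ![p.1, p.2]) := by
    refine continuous_pi (fun i => ?_)
    fin_cases i
    · exact continuous_fst
    · exact continuous_snd
  obtain ⟨c, hc⟩ := classify (H := fun z w => h ![z, w]) (by
      exact hd.continuousOn.comp hcontmap.continuousOn hmap) (by
      intro z w hzw
      have h1 : DifferentiableAt ℂ h ![z, w] := hd.differentiableAt (Om_open.mem_nhds (hmap _ hzw))
      have h2 : DifferentiableAt ℂ (fun z : ℂ => ![z, w]) z := by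
        rw [differentiableAt_pi]
        intro i
        fin_cases i
        · exact differentiableAt_id
        · exact differentiableAt_const _
      exact DifferentiableAt.comp z h1 h2) (by
      intro z w hzw
      have h1 : DifferentiableAt ℂ h ![z, w] := hd.differentiableAt (Om_open.mem_nhds (hmap _ hzw))
      have h2 : DifferentiableAt ℂ (fun w : ℂ => ![z, w]) w := by
        rw [differentiableAt_pi]
        intro i
        fin_cases i
        · exact differentiableAt_const _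
        · exact differentiableAt_id
      exact DifferentiableAt.comp w h1 h2) (by
      have h1 := hm.2
      rw [eLpNorm_lt_top_iff_lintegral_rpow_enorm_lt_top (by norm_num) (by norm_num)] at h1
      have h2 := transfer (fun p => ‖h ![p.1, p.2]‖ₑ ^ 2)
      rw [← h2]
      simp only [ENNReal.toReal_ofNat, ENNReal.rpow_two] at h1
      refine ne_of_lt (lt_of_le_of_lt (le_of_eq ?_) h1)
      congr 1
      ext v
      congr 3
      ext i
      fin_cases i <;> simp)
  refine ⟨c, fun v hv => ?_⟩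
  have h1 := hc (v 0) (v 1) hv
  have h2 : ![v 0, v 1] = v := by
    ext i
    fin_cases i <;> simp
  simp only [h2] at h1
  exact h1

end Pool.Agent.H788R3
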