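import Mathlib

set_option autoImplicit false
open Set Metric Complex Filter Topology

namespace Pool.Agent.H788R3.EggSq

abbrev C2 := EuclideanSpace ℂ (Fin 2)

noncomputable def egg (v : C2) : ℝ := ‖v 0‖ ^ 2 + ‖v 1‖ ^ 4 - 1

def Egg : Set C2 := {v | egg v < 0}

theorem norm_sq_C2 (v : C2) : ‖v‖ ^ 2 = ‖v 0‖ ^ 2 + ‖v 1‖ ^ 2 := by
  rw [EuclideanSpace.norm_eq, Real.sq_sqrt (by positivity), Fin.sum_univ_two]

noncomputable def mk (a b : ℂ) : C2 := WithLp.toLp 2 ![a, b]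

@[simp] theorem mk_zero (a b : ℂ) : (mk a b) 0 = a := by simp [mk]
@[simp] theorem mk_one (a b : ℂ) : (mk a b) 1 = b := by simp [mk]

theorem ext2 {u v : C2} (h0 : u 0 = v 0) (h1 : u 1 = v 1) : u = v := by
  ext i
  fin_cases i
  · exact h0
  · exact h1

theorem mk_diff {f g : C2 → ℂ} {s : Set C2} (hf : DifferentiableOn ℂ f s) (hg : DifferentiableOn ℂ g s) :
    DifferentiableOn ℂ (fun v => mk (f v) (g v)) s := by
  rw [differentiableOn_euclidean]
  intro i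
  fin_cases i
  · simpa using hf
  · simpa using hg

theorem div_diff {f g : C2 → ℂ} {s : Set C2} (hf : DifferentiableOn ℂ f s) (hg : DifferentiableOn ℂ g s)
    (h : ∀ x ∈ s, g x ≠ 0) : DifferentiableOn ℂ (fun v => f v / g v) s := by
  intro x hx
  have h1 : DifferentiableWithinAt ℂ (fun v => (g v)⁻¹) s x :=
    (differentiableAt_inv (h x hx)).comp_differentiableWithinAt x (hg x hx)
  have h2 := (hf x hx).mul h1
  exact h2

theorem egg_norm0 {v : C2} (hv : v ∈ Egg) : ‖v 0‖ < 1 := by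
  have h : ‖v 0‖ ^ 2 + ‖v 1‖ ^ 4 - 1 < 0 := hv
  have h1 : 0 ≤ ‖v 1‖ ^ 4 := by positivity
  have h2 := norm_nonneg (v 0)
  nlinarith

theorem egg_norm1 {v : C2} (hv : v ∈ Egg) : ‖v 1‖ < 1 := by
  have h : ‖v 0‖ ^ 2 + ‖v 1‖ ^ 4 - 1 < 0 := hv
  have h1 : 0 ≤ ‖v 0‖ ^ 2 := by positivity
  by_contra hc
  push Not at hc
  have : 1 ≤ ‖v 1‖ ^ 4 := one_le_pow₀ hc
  linarith

/-- the squeezing map at `(0,t)` -/
theorem sq_map {t : ℝ} (ht0 : 0 < t) (ht1 : t < 1) :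
    ∃ Q : C2 → C2, DifferentiableOn ℂ Q Egg ∧ InjOn Q Egg ∧ MapsTo Q Egg (ball 0 1) ∧
      Q (mk 0 t) = 0 ∧ ball 0 (Real.sqrt (2 * t ^ 2 - 1)) ⊆ Q '' Egg := by
  set c : ℝ := Real.sqrt ((1 - t ^ 2) / 2) with hc
  have ht2 : 0 < 1 - t ^ 2 := by nlinarith
  have hc2 : c ^ 2 = (1 - t ^ 2) / 2 := Real.sq_sqrt (by positivity)
  have hcpos : 0 < c := Real.sqrt_pos.mpr (by positivity)
  have hcC : (c : ℂ) ≠ 0 := by exact_mod_cast hcpos.ne'
  have hden : ∀ w : ℂ, ‖w‖ < 1 → 1 - (t : ℂ) * w ≠ 0 := by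
    intro w hw h
    have h1 : (t : ℂ) * w = 1 := by linear_combination -h
    have h2 : ‖(t : ℂ) * w‖ = 1 := by rw [h1, norm_one]
    rw [norm_mul, Complex.norm_real, Real.norm_of_nonneg ht0.le] at h2
    nlinarith [norm_nonneg w]
  have hid : ∀ w : ℂ, ‖1 - (t : ℂ) * w‖ ^ 2 - ‖w - t‖ ^ 2 = (1 - t ^ 2) * (1 - ‖w‖ ^ 2) := by
    intro w
    simp only [← Complex.normSq_eq_norm_sq, Complex.normSq_apply, Complex.sub_re, Complex.sub_im, Complex.one_re,
      Complex.one_im, Complex.mul_re, Complex.mul_im, Complex.ofReal_re, Complex.ofReal_im]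
    ring
  refine ⟨fun v => mk (c * v 0 / (1 - t * v 1)) ((v 1 - t) / (1 - t * v 1)), ?_, ?_, ?_, ?_, ?_⟩
  · apply mk_diff
    · apply div_diff
      · fun_prop
      · fun_prop
      · intro v hv
        exact hden _ (egg_norm1 hv)
    · apply div_diff
      · fun_prop
      · fun_prop
      · intro v hv
        exact hden _ (egg_norm1 hv)
  · intro u hu v hv huv
    have e0 := congrArg (fun x : C2 => x 0) huv
    have e1 := congrArg (fun x : C2 => x 1) huv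
    simp only [mk_zero, mk_one] at e0 e1
    have du := hden _ (egg_norm1 hu)
    have dv := hden _ (egg_norm1 hv)
    have h1 : u 1 = v 1 := by
      rw [div_eq_div_iff du dv] at e1
      have h2 : (1 - (t:ℂ) ^ 2) * (u 1 - v 1) = 0 := by linear_combination e1
      have h3 : (1 - (t:ℂ) ^ 2) ≠ 0 := by exact_mod_cast ht2.ne'
      exact sub_eq_zero.mp ((mul_eq_zero.mp h2).resolve_left h3)
    rw [h1] at e0
    have h4 : (c:ℂ) * u 0 = c * v 0 := by
      rw [div_eq_div_iff dv dv] at e0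
      exact mul_right_cancel₀ dv e0
    exact ext2 (mul_left_cancel₀ hcC h4) h1
  · intro v hv
    rw [mem_ball_zero_iff]
    have hv' : ‖v 0‖ ^ 2 + ‖v 1‖ ^ 4 - 1 < 0 := hv
    have d := hden _ (egg_norm1 hv)
    have dpos : 0 < ‖1 - (t:ℂ) * v 1‖ := norm_pos_iff.mpr d
    have h1 : ‖mk (c * v 0 / (1 - t * v 1)) ((v 1 - t) / (1 - t * v 1))‖ ^ 2 < 1 := by
      rw [norm_sq_C2, mk_zero, mk_one, norm_div, norm_div, norm_mul, Complex.norm_real,
        Real.norm_of_nonneg hcpos.le, div_pow, div_pow, ← add_div, div_lt_one (by positivity), mul_pow, hc2]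
      have h2 := hid (v 1)
      have h3 : ‖v 0‖ ^ 2 / 2 < 1 - ‖v 1‖ ^ 2 := by nlinarith [sq_nonneg (1 - ‖v 1‖ ^ 2)]
      nlinarith
    exact (sq_lt_one_iff₀ (norm_nonneg _)).mp h1
  · apply ext2 <;> simp
  · intro y hy
    rw [mem_ball_zero_iff] at hy
    have hrpos : 0 < Real.sqrt (2 * t ^ 2 - 1) := (norm_nonneg y).trans_lt hy
    have hr2 : Real.sqrt (2 * t ^ 2 - 1) ^ 2 = 2 * t ^ 2 - 1 := Real.sq_sqrt (Real.sqrt_pos.mp hrpos).le
    have hy2 : ‖y 0‖ ^ 2 + ‖y 1‖ ^ 2 < 2 * t ^ 2 - 1 := by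
      rw [← norm_sq_C2, ← hr2]
      have := norm_nonneg y
      gcongr
    have hy1 : ‖y 1‖ < 1 := by
      have h1 := norm_nonneg (y 1)
      have h2 : 0 ≤ ‖y 0‖ ^ 2 := by positivity
      nlinarith
    have hden' : 1 + (t:ℂ) * y 1 ≠ 0 := by
      have := hden (-(y 1)) (by rwa [norm_neg])
      rwa [mul_neg, sub_neg_eq_add] at this
    set w : ℂ := (y 1 + t) / (1 + t * y 1) with hw
    have ht2C : (1 - (t:ℂ) ^ 2) ≠ 0 := by exact_mod_cast ht2.ne'
    have h1w : 1 - (t:ℂ) * w = (1 - (t:ℂ) ^ 2) / (1 + t * y 1) := by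
      rw [hw]
      field_simp
      ring
    have h1w0 : 1 - (t:ℂ) * w ≠ 0 := by
      rw [h1w]
      exact div_ne_zero ht2C hden'
    have hwt : w - t = y 1 * (1 - (t:ℂ) * w) := by
      rw [h1w, hw]
      obtain ⟨D, hD⟩ : ∃ D, D = 1 + (t:ℂ) * y 1 := ⟨_, rfl⟩
      rw [← hD] at hden' ⊢
      field_simp
      linear_combination (-(t:ℂ)) * hD
    set z : ℂ := y 0 * (1 - t * w) / c with hz
    refine ⟨mk z w, ?_, ?_⟩
    · show ‖(mk z w) 0‖ ^ 2 + ‖(mk z w) 1‖ ^ 4 - 1 < 0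
      rw [mk_zero, mk_one]
      -- norms
      have hDpos : 0 < ‖1 + (t:ℂ) * y 1‖ := norm_pos_iff.mpr hden'
      set Dn : ℝ := ‖1 + (t:ℂ) * y 1‖ with hDn
      have hnt : ‖(1 - (t:ℂ) ^ 2)‖ = 1 - t ^ 2 := by
        have : (1 - (t:ℂ) ^ 2) = ((1 - t ^ 2 : ℝ) : ℂ) := by push_cast; ring
        rw [this, Complex.norm_real, Real.norm_of_nonneg ht2.le]
      have hz2 : ‖z‖ ^ 2 = 2 * ‖y 0‖ ^ 2 * ((1 - t ^ 2) / Dn ^ 2) := by
        rw [hz, norm_div, norm_mul, h1w, norm_div, Complex.norm_real, Real.norm_of_nonneg hcpos.le, hnt, div_pow,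
          mul_pow, div_pow, hc2, ← hDn]
        field_simp
      have hw2 : 1 - ‖w‖ ^ 2 = (1 - t ^ 2) / Dn ^ 2 * (1 - ‖y 1‖ ^ 2) := by
        have h2 := hid (-(y 1))
        rw [mul_neg, sub_neg_eq_add, norm_neg] at h2
        have h3 : ‖-(y 1) - t‖ = ‖y 1 + t‖ := by
          rw [← norm_neg]
          congr 1
          ring
        rw [h3] at h2
        rw [hw, norm_div, div_pow, ← hDn]
        rw [← hDn] at h2
        field_simp
        linarith
      set k : ℝ := (1 - t ^ 2) / Dn ^ 2 with hk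
      have hkpos : 0 < k := by rw [hk]; positivity
      set n1 := ‖y 1‖ with hn1
      have hn10 : 0 ≤ n1 := norm_nonneg _
      have hDge : 1 - n1 ≤ Dn := by
        have h4 : ‖(t:ℂ) * y 1‖ ≤ n1 := by
          rw [norm_mul, Complex.norm_real, Real.norm_of_nonneg ht0.le]
          exact mul_le_of_le_one_left hn10 ht1.le
        have h5 : (1:ℝ) ≤ ‖1 + (t:ℂ) * y 1‖ + ‖(t:ℂ) * y 1‖ := by
          calc (1:ℝ) = ‖(1 + (t:ℂ) * y 1) - (t:ℂ) * y 1‖ := by simp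
            _ ≤ _ := norm_sub_le _ _
        linarith
      have hk1 : k * (1 - n1 ^ 2) ^ 2 ≤ 4 * (1 - t ^ 2) := by
        rw [hk, div_mul_eq_mul_div, div_le_iff₀ (by positivity)]
        have h6 : (1 - n1 ^ 2) ^ 2 ≤ 4 * Dn ^ 2 := by
          have h7 : 1 - n1 ^ 2 ≤ 2 * Dn := by nlinarith
          have h8 : 0 ≤ 1 - n1 ^ 2 := by nlinarith
          nlinarith
        nlinarith
      have hww : ‖w‖ ^ 4 = (1 - k * (1 - n1 ^ 2)) ^ 2 := by
        have : ‖w‖ ^ 2 = 1 - k * (1 - n1 ^ 2) := by linarith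
        rw [← this]
        ring
      rw [hz2, hww]
      have h9 : 2 * ‖y 0‖ ^ 2 < (1 - n1 ^ 2) * (2 - k * (1 - n1 ^ 2)) := by
        have h10 : (1 - n1 ^ 2) * (2 - k * (1 - n1 ^ 2)) = 2 * (1 - n1 ^ 2) - k * (1 - n1 ^ 2) ^ 2 := by ring
        rw [h10]
        linarith
      have h11 := mul_pos hkpos (sub_pos.mpr h9)
      have h12 : 2 * ‖y 0‖ ^ 2 * k + (1 - k * (1 - n1 ^ 2)) ^ 2 - 1 =
          -(k * ((1 - n1 ^ 2) * (2 - k * (1 - n1 ^ 2)) - 2 * ‖y 0‖ ^ 2)) := by ring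
      rw [h12]
      linarith
    · apply ext2
      · simp only [mk_zero, mk_one]
        rw [hz]
        field_simp
      · simp only [mk_zero, mk_one]
        rw [hwt]
        field_simp

/-- automorphisms of the egg -/
theorem egg_aut {s : ℝ} (hs0 : 0 < s) (hs1 : s < 1) :
    ∃ A : C2 → C2, DifferentiableOn ℂ A Egg ∧ InjOn A Egg ∧ MapsTo A Egg Egg ∧ Egg ⊆ A '' Egg ∧
      ∀ x : C2, x ∈ Egg → (A x) 0 = 0 → x 0 = s := by
  have hs2 : 0 < 1 - s ^ 2 := by nlinarith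
  set c : ℝ := Real.sqrt (Real.sqrt (1 - s ^ 2)) with hc
  have hcpos : 0 < c := Real.sqrt_pos.mpr (Real.sqrt_pos.mpr hs2)
  have hc4 : c ^ 4 = 1 - s ^ 2 := by
    have h1 : c ^ 2 = Real.sqrt (1 - s ^ 2) := Real.sq_sqrt (Real.sqrt_nonneg _)
    have h2 : Real.sqrt (1 - s ^ 2) ^ 2 = 1 - s ^ 2 := Real.sq_sqrt hs2.le
    calc c ^ 4 = (c ^ 2) ^ 2 := by ring
      _ = 1 - s ^ 2 := by rw [h1, h2]
  have hcC : (c : ℂ) ≠ 0 := by exact_mod_cast hcpos.ne'
  have hre : ∀ z : ℂ, ‖z‖ < 1 → 0 < (1 - (s : ℂ) * z).re := by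
    intro z hz
    rw [Complex.sub_re, Complex.one_re, Complex.re_ofReal_mul]
    have h1 := (Complex.abs_re_le_norm z)
    have h2 := (abs_le.mp h1).2
    nlinarith
  have hden : ∀ z : ℂ, ‖z‖ < 1 → 1 - (s : ℂ) * z ≠ 0 := by
    intro z hz h
    have := hre z hz
    rw [h, Complex.zero_re] at this
    exact lt_irrefl _ this
  have hid : ∀ w : ℂ, ‖1 - (s : ℂ) * w‖ ^ 2 - ‖w - s‖ ^ 2 = (1 - s ^ 2) * (1 - ‖w‖ ^ 2) := by
    intro w
    simp only [← Complex.normSq_eq_norm_sq, Complex.normSq_apply, Complex.sub_re, Complex.sub_im, Complex.one_re,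
      Complex.one_im, Complex.mul_re, Complex.mul_im, Complex.ofReal_re, Complex.ofReal_im]
    ring
  set R : ℂ → ℂ := fun z => Complex.exp (-(1 / 2) * Complex.log (1 - s * z)) with hR
  have hR4 : ∀ z : ℂ, ‖z‖ < 1 → ‖R z‖ ^ 4 = 1 / ‖1 - (s:ℂ) * z‖ ^ 2 := by
    intro z hz
    have hpos : 0 < ‖1 - (s:ℂ) * z‖ := norm_pos_iff.mpr (hden z hz)
    rw [hR]
    simp only
    rw [Complex.norm_exp]
    have h1 : (-(1 / 2) * Complex.log (1 - s * z)).re = -(1 / 2) * Real.log ‖1 - (s:ℂ) * z‖ := by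
      have : (-(1 / 2) : ℂ) = ((-(1 / 2) : ℝ) : ℂ) := by push_cast; ring
      rw [this, Complex.re_ofReal_mul, Complex.log_re]
    rw [h1, ← Real.exp_nat_mul]
    have h2 : ((4:ℕ):ℝ) * (-(1 / 2) * Real.log ‖1 - (s:ℂ) * z‖) = -(2 * Real.log ‖1 - (s:ℂ) * z‖) := by
      push_cast; ring
    rw [h2, Real.exp_neg, one_div]
    congr 1
    rw [mul_comm, Real.exp_mul, Real.exp_log hpos]
    norm_cast
  have hR0 : ∀ z, R z ≠ 0 := fun z => Complex.exp_ne_zero _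
  have key : ∀ z w : ℂ, ‖z‖ < 1 →
      ‖(z - s) / (1 - s * z)‖ ^ 2 + ‖c * w * R z‖ ^ 4 - 1 =
        (1 - s ^ 2) / ‖1 - (s:ℂ) * z‖ ^ 2 * (‖z‖ ^ 2 + ‖w‖ ^ 4 - 1) := by
    intro z w hz
    have hpos : 0 < ‖1 - (s:ℂ) * z‖ := norm_pos_iff.mpr (hden z hz)
    rw [norm_mul, norm_mul, mul_pow, mul_pow, hR4 z hz, Complex.norm_real, Real.norm_of_nonneg hcpos.le, hc4,
      norm_div, div_pow]
    have := hid z
    set D : ℝ := ‖1 - (s:ℂ) * z‖ with hD
    field_simp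
    linarith
  have hmaps : ∀ v : C2, v ∈ Egg → mk ((v 0 - s) / (1 - s * v 0)) (c * v 1 * R (v 0)) ∈ Egg := by
    intro v hv
    have hz := egg_norm0 hv
    show ‖(mk _ _) 0‖ ^ 2 + ‖(mk _ _) 1‖ ^ 4 - 1 < 0
    rw [mk_zero, mk_one, key _ _ hz]
    have hpos : 0 < ‖1 - (s:ℂ) * v 0‖ := norm_pos_iff.mpr (hden _ hz)
    have hv' : ‖v 0‖ ^ 2 + ‖v 1‖ ^ 4 - 1 < 0 := hv
    exact mul_neg_of_pos_of_neg (by positivity) hv'
  refine ⟨fun v => mk ((v 0 - s) / (1 - s * v 0)) (c * v 1 * R (v 0)), ?_, ?_, hmaps, ?_, ?_⟩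
  · apply mk_diff
    · apply div_diff
      · fun_prop
      · fun_prop
      · intro v hv
        exact hden _ (egg_norm0 hv)
    · have h1 : DifferentiableOn ℂ (fun v : C2 => R (v 0)) Egg := by
        intro v hv
        have h2 : DifferentiableAt ℂ (fun v : C2 => (1:ℂ) - s * v 0) v := by fun_prop
        have h3 : DifferentiableAt ℂ (fun v : C2 => Complex.log (1 - s * v 0)) v :=
          h2.clog (Or.inl (hre _ (egg_norm0 hv)))
        exact (h3.const_mul _).cexp.differentiableWithinAt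
      have h4 : DifferentiableOn ℂ (fun v : C2 => (c:ℂ) * v 1) Egg := by fun_prop
      exact h4.mul h1
  · intro u hu v hv huv
    have e0 := congrArg (fun x : C2 => x 0) huv
    have e1 := congrArg (fun x : C2 => x 1) huv
    simp only [mk_zero, mk_one] at e0 e1
    have du := hden _ (egg_norm0 hu)
    have dv := hden _ (egg_norm0 hv)
    have h1 : u 0 = v 0 := by
      rw [div_eq_div_iff du dv] at e0
      have h2 : (1 - (s:ℂ) ^ 2) * (u 0 - v 0) = 0 := by linear_combination e0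
      have h3 : (1 - (s:ℂ) ^ 2) ≠ 0 := by exact_mod_cast hs2.ne'
      exact sub_eq_zero.mp ((mul_eq_zero.mp h2).resolve_left h3)
    rw [h1] at e1
    have h4 : (c:ℂ) * u 1 = c * v 1 := mul_right_cancel₀ (hR0 _) e1
    exact ext2 h1 (mul_left_cancel₀ hcC h4)
  · intro y hy
    have hy0 := egg_norm0 hy
    have hden' : 1 + (s:ℂ) * y 0 ≠ 0 := by
      have := hden (-(y 0)) (by rwa [norm_neg])
      rwa [mul_neg, sub_neg_eq_add] at this
    set z : ℂ := (y 0 + s) / (1 + s * y 0) with hz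
    have hs2C : (1 - (s:ℂ) ^ 2) ≠ 0 := by exact_mod_cast hs2.ne'
    have h1z : 1 - (s:ℂ) * z = (1 - (s:ℂ) ^ 2) / (1 + s * y 0) := by
      rw [hz]
      field_simp
      ring
    have h1z0 : 1 - (s:ℂ) * z ≠ 0 := by
      rw [h1z]
      exact div_ne_zero hs2C hden'
    have hzs : (z - s) / (1 - s * z) = y 0 := by
      rw [div_eq_iff h1z0, h1z, hz]
      obtain ⟨D, hD⟩ : ∃ D, D = 1 + (s:ℂ) * y 0 := ⟨_, rfl⟩
      rw [← hD] at hden' ⊢
      field_simp
      linear_combination (-(s:ℂ)) * hD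
    have hz1 : ‖z‖ < 1 := by
      have h2 := hid (-(y 0))
      rw [mul_neg, sub_neg_eq_add, norm_neg] at h2
      have h3 : ‖-(y 0) - s‖ = ‖y 0 + s‖ := by
        rw [← norm_neg]
        congr 1
        ring
      rw [h3] at h2
      have h4 : 0 < ‖1 + (s:ℂ) * y 0‖ := norm_pos_iff.mpr hden'
      rw [hz, norm_div, div_lt_one h4]
      have h5 : ‖y 0‖ ^ 2 < 1 := by nlinarith [norm_nonneg (y 0)]
      have h6 : ‖y 0 + s‖ ^ 2 < ‖1 + (s:ℂ) * y 0‖ ^ 2 := by nlinarith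
      exact lt_of_pow_lt_pow_left₀ 2 h4.le h6
    set w : ℂ := y 1 / (c * R z) with hw
    have hcw : c * w * R z = y 1 := by
      rw [hw]
      have := hR0 z
      field_simp
    refine ⟨mk z w, ?_, ?_⟩
    · show ‖(mk z w) 0‖ ^ 2 + ‖(mk z w) 1‖ ^ 4 - 1 < 0
      rw [mk_zero, mk_one]
      have h7 := key z w hz1
      rw [hzs, hcw] at h7
      have hy' : ‖y 0‖ ^ 2 + ‖y 1‖ ^ 4 - 1 < 0 := hy
      rw [h7] at hy'
      have hpos : 0 < ‖1 - (s:ℂ) * z‖ := norm_pos_iff.mpr h1z0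
      have h8 : 0 < (1 - s ^ 2) / ‖1 - (s:ℂ) * z‖ ^ 2 := by positivity
      by_contra hcon
      push Not at hcon
      have := mul_nonneg h8.le hcon
      linarith
    · apply ext2
      · simp only [mk_zero, mk_one]
        exact hzs
      · simp only [mk_zero, mk_one]
        exact hcw
  · intro x hx hx0
    simp only [mk_zero] at hx0
    have d := hden _ (egg_norm0 hx)
    rw [div_eq_zero_iff] at hx0
    rcases hx0 with h | h
    · exact sub_eq_zero.mp h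
    · exact absurd h d

end Pool.Agent.H788R3.EggSq
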