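import Pool.Agent.H788R3.EggSq

set_option autoImplicit false
open Set Metric Complex Filter Topology Asymptotics

namespace Pool.Agent.H788R3.EggSq

theorem analytic_small {A : ℂ → ℂ} (hA : AnalyticAt ℂ A 0) :
    ∃ r0 > 0, DifferentiableOn ℂ A (ball 0 r0) := by
  have h := hA.eventually_analyticAt
  obtain ⟨r0, hr0, hb⟩ := Metric.eventually_nhds_iff_ball.mp h
  exact ⟨r0, hr0, fun z hz => (hb z hz).differentiableAt.differentiableWithinAt⟩

theorem avg_eq {A : ℂ → ℂ} {r0 : ℝ} (hA : DifferentiableOn ℂ A (ball 0 r0)) {r : ℝ} (hr : 0 < r) (hrr : r < r0) :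
    Real.circleAverage (fun t => ‖A t‖ ^ 2 - ‖A 0‖ ^ 2) 0 r =
      Real.circleAverage (fun t => ‖A t - A 0‖ ^ 2) 0 r ∧
    CircleIntegrable (fun t => ‖A t‖ ^ 2 - ‖A 0‖ ^ 2) 0 r ∧ CircleIntegrable (fun t => ‖A t - A 0‖ ^ 2) 0 r := by
  have hcb : closedBall (0:ℂ) r ⊆ ball 0 r0 := closedBall_subset_ball hrr
  have hc : ContinuousOn A (sphere 0 r) := (hA.mono (sphere_subset_closedBall.trans hcb)).continuousOn
  have i1 : CircleIntegrable (fun t => ‖A t‖ ^ 2 - ‖A 0‖ ^ 2) 0 r :=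
    ((hc.norm.pow 2).sub continuousOn_const).circleIntegrable hr.le
  have i2 : CircleIntegrable (fun t => ‖A t - A 0‖ ^ 2) 0 r :=
    ((hc.sub continuousOn_const).norm.pow 2).circleIntegrable hr.le
  refine ⟨?_, i1, i2⟩
  set B : ℂ → ℂ := fun t => (starRingEnd ℂ (A 0)) * (A t - A 0) with hB
  have hBd : DiffContOnCl ℂ B (ball 0 |r|) := by
    rw [abs_of_pos hr]
    have h1 : DifferentiableOn ℂ B (ball 0 r0) := (hA.sub_const _).const_mul _
    constructor
    · exact h1.mono (ball_subset_closedBall.trans hcb)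
    · rw [closure_ball _ hr.ne']
      exact (h1.mono hcb).continuousOn
  have hBavg : Real.circleAverage B 0 r = B 0 := hBd.circleAverage
  have hB0 : B 0 = 0 := by simp [hB]
  have i3 : CircleIntegrable B 0 r := (continuousOn_const.mul (hc.sub continuousOn_const)).circleIntegrable hr.le
  have hre : Real.circleAverage (fun t => (B t).re) 0 r = 0 := by
    have := Complex.reCLM.circleAverage_comp_comm i3
    rw [hBavg, hB0, map_zero] at this
    exact this
  have i4 : CircleIntegrable (fun t => (B t).re) 0 r := by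
    exact (Complex.continuous_re.comp_continuousOn
      (continuousOn_const.mul (hc.sub continuousOn_const))).circleIntegrable hr.le
  have hpt : (fun t => ‖A t‖ ^ 2 - ‖A 0‖ ^ 2) = fun t => ‖A t - A 0‖ ^ 2 + (2:ℝ) • (B t).re := by
    ext t
    rw [hB]
    simp only [← Complex.normSq_eq_norm_sq, Complex.normSq_apply, Complex.sub_re, Complex.sub_im, Complex.mul_re,
      Complex.conj_re, Complex.conj_im, smul_eq_mul]
    ring
  have i5 : CircleIntegrable (fun t => (2:ℝ) • (B t).re) 0 r := by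
    exact ((Complex.continuous_re.comp_continuousOn
      (continuousOn_const.mul (hc.sub continuousOn_const))).const_smul (2:ℝ)).circleIntegrable hr.le
  rw [hpt, Real.circleAverage_fun_add i2 i5, Real.circleAverage_fun_smul, hre, smul_zero, add_zero]

/-- order estimate -/
theorem order_est {A B : ℂ → ℂ} (hA : AnalyticAt ℂ A 0) (hB : AnalyticAt ℂ B 0) {N k : ℕ}
    (hO : (fun t => (‖A t‖ ^ 2 - ‖A 0‖ ^ 2) + (‖B t‖ ^ 2 - ‖B 0‖ ^ 2)) =O[𝓝 0] fun t : ℂ => ‖t‖ ^ N)
    (hk : 2 * k ≤ N) : (fun t => A t - A 0) =O[𝓝 0] fun t : ℂ => ‖t‖ ^ k := by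
  have hA' : AnalyticAt ℂ (fun t => A t - A 0) 0 := hA.sub analyticAt_const
  by_cases hzero : ∀ᶠ t in 𝓝 (0:ℂ), A t - A 0 = 0
  · have : (fun t => A t - A 0) =ᶠ[𝓝 0] fun _ => (0:ℂ) := hzero
    exact this.trans_isBigO (isBigO_zero _ _)
  obtain ⟨m, u, hu, hu0, hum⟩ := (hA'.exists_eventuallyEq_pow_smul_nonzero_iff).mpr hzero
  simp only [sub_zero, smul_eq_mul] at hum
  have hmN : N ≤ 2 * m := by
    by_contra hcon
    push Not at hcon
    obtain ⟨C, hC⟩ := hO.bound
    obtain ⟨rA, hrA, dA⟩ := analytic_small hA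
    obtain ⟨rB, hrB, dB⟩ := analytic_small hB
    have hu1 : ∀ᶠ t in 𝓝 (0:ℂ), ‖u 0‖ / 2 < ‖u t‖ := by
      have h1 : Tendsto (fun t => ‖u t‖) (𝓝 0) (𝓝 ‖u 0‖) := hu.continuousAt.norm
      exact h1.eventually (lt_mem_nhds (by have := norm_pos_iff.mpr hu0; linarith))
    obtain ⟨r1, hr1, hb1⟩ := Metric.eventually_nhds_iff_ball.mp (hu1.and (hum.and hC))
    have key : ∀ r : ℝ, 0 < r → r < min rA (min rB r1) → ‖u 0‖ ^ 2 / 4 ≤ C * r ^ (N - 2 * m) := by
      intro r hr hrr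
      have hrA' : r < rA := hrr.trans_le (min_le_left _ _)
      have hrB' : r < rB := hrr.trans_le ((min_le_right _ _).trans (min_le_left _ _))
      have hr1' : r < r1 := hrr.trans_le ((min_le_right _ _).trans (min_le_right _ _))
      obtain ⟨a1, a2, a3⟩ := avg_eq dA hr hrA'
      obtain ⟨b1, b2, b3⟩ := avg_eq dB hr hrB'
      have hsum : Real.circleAverage (fun t => (‖A t‖ ^ 2 - ‖A 0‖ ^ 2) + (‖B t‖ ^ 2 - ‖B 0‖ ^ 2)) 0 r =
          Real.circleAverage (fun t => ‖A t - A 0‖ ^ 2) 0 r + Real.circleAverage (fun t => ‖B t - B 0‖ ^ 2) 0 r := by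
        rw [Real.circleAverage_fun_add a2 b2, a1, b1]
      have hmem : ∀ t ∈ sphere (0:ℂ) |r|, t ∈ ball (0:ℂ) r1 ∧ ‖t‖ = r := by
        intro t ht
        have : ‖t‖ = r := by simpa [abs_of_pos hr] using ht
        exact ⟨by simpa [this] using hr1', this⟩
      have hup : Real.circleAverage (fun t => (‖A t‖ ^ 2 - ‖A 0‖ ^ 2) + (‖B t‖ ^ 2 - ‖B 0‖ ^ 2)) 0 r ≤ C * r ^ N := by
        apply Real.circleAverage_mono_on_of_le_circle (a2.add b2)
        intro t ht
        obtain ⟨h1, h2⟩ := hmem t ht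
        have h3 := (hb1 t h1).2.2
        rw [Real.norm_eq_abs] at h3
        have h4 := (le_abs_self _).trans h3
        rw [Real.norm_of_nonneg (by positivity), h2] at h4
        exact h4
      have hlow : r ^ (2 * m) * (‖u 0‖ ^ 2 / 4) ≤ Real.circleAverage (fun t => ‖A t - A 0‖ ^ 2) 0 r := by
        rw [← Real.circleAverage_const (r ^ (2 * m) * (‖u 0‖ ^ 2 / 4)) 0 r]
        apply Real.circleAverage_mono (continuousOn_const.circleIntegrable hr.le) a3
        intro t ht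
        obtain ⟨h1, h2⟩ := hmem t ht
        have h3 := (hb1 t h1).2.1
        have h5 := (hb1 t h1).1
        rw [h3, norm_mul, norm_pow, h2, mul_pow, ← pow_mul, mul_comm m 2]
        have h6 := norm_nonneg (u 0)
        have h7 : ‖u 0‖ ^ 2 / 4 ≤ ‖u t‖ ^ 2 := by nlinarith
        gcongr
      have hBnn : 0 ≤ Real.circleAverage (fun t => ‖B t - B 0‖ ^ 2) 0 r :=
        Real.circleAverage_nonneg_of_nonneg (fun _ _ => by positivity)
      have h8 : r ^ (2 * m) * (‖u 0‖ ^ 2 / 4) ≤ C * r ^ N := by linarith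
      have h9 : r ^ N = r ^ (2 * m) * r ^ (N - 2 * m) := by
        rw [← pow_add]
        congr 1
        omega
      rw [h9] at h8
      have h10 : 0 < r ^ (2 * m) := by positivity
      have h11 : r ^ (2 * m) * (‖u 0‖ ^ 2 / 4) ≤ r ^ (2 * m) * (C * r ^ (N - 2 * m)) := by linarith
      exact le_of_mul_le_mul_left h11 h10
    have hlim : Tendsto (fun r : ℝ => C * r ^ (N - 2 * m)) (𝓝[>] 0) (𝓝 (C * 0 ^ (N - 2 * m))) := by
      have : Continuous (fun r : ℝ => C * r ^ (N - 2 * m)) := by fun_prop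
      exact (this.tendsto 0).mono_left nhdsWithin_le_nhds
    rw [zero_pow (by omega), mul_zero] at hlim
    have hle : ‖u 0‖ ^ 2 / 4 ≤ 0 := by
      apply ge_of_tendsto hlim
      have hpos : 0 < min rA (min rB r1) := lt_min hrA (lt_min hrB hr1)
      filter_upwards [Ioo_mem_nhdsGT hpos] with r hr
      exact key r hr.1 hr.2
    have := norm_pos_iff.mpr hu0
    nlinarith
  have hkm : k ≤ m := by omega
  have h1 : (fun t => A t - A 0) =ᶠ[𝓝 0] fun t => t ^ m * u t := hum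
  refine h1.trans_isBigO ?_
  have h2 : (fun t : ℂ => t ^ m * u t) =O[𝓝 0] fun t : ℂ => t ^ m * (1:ℂ) := by
    apply (isBigO_refl _ _).mul
    exact (hu.continuousAt.norm.isBoundedUnder_le).isBigO_one ℂ
  refine h2.trans ?_
  simp only [mul_one]
  apply IsBigO.of_bound 1
  filter_upwards [closedBall_mem_nhds (0:ℂ) one_pos] with t ht
  have ht' : ‖t‖ ≤ 1 := by simpa using ht
  rw [norm_pow, Real.norm_of_nonneg (by positivity), one_mul]
  exact pow_le_pow_of_le_one (norm_nonneg t) ht' hkm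

/-- order of contact of analytic discs with the boundary of the egg -/
theorem egg_type (x : C2) (hx : egg x = 0) (γ : ℂ → C2) (hγ : AnalyticAt ℂ γ 0) (hγ0 : γ 0 = x)
    (m N : ℕ) (hm : ¬ (fun t => γ t - x) =O[𝓝 0] fun t : ℂ => ‖t‖ ^ (m + 1))
    (hN : (fun t => egg (γ t)) =O[𝓝 0] fun t : ℂ => ‖t‖ ^ N) : N ≤ 7 * m := by
  by_contra hcon
  push Not at hcon
  apply hm
  have hcoord : ∀ i : Fin 2, AnalyticAt ℂ (fun t => γ t i) 0 := by
    intro i
    exact ((EuclideanSpace.proj (𝕜 := ℂ) i : C2 →L[ℂ] ℂ).analyticAt _).comp hγ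
  rcases Nat.eq_zero_or_pos m with hm0 | hm0
  · subst hm0
    simp only [zero_add, pow_one]
    have h1 := hγ.differentiableAt.isBigO_sub
    rw [hγ0] at h1
    simp only [sub_zero] at h1
    exact h1.norm_right
  have h4 : 4 * (m + 1) ≤ N := by omega
  set a : ℂ → ℂ := fun t => γ t 0 with ha
  set b : ℂ → ℂ := fun t => γ t 1 with hb
  have hA : AnalyticAt ℂ a 0 := hcoord 0
  have hb' : AnalyticAt ℂ b 0 := hcoord 1
  have hB : AnalyticAt ℂ (fun t => b t ^ 2) 0 := hb'.pow 2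
  have e1 : ∀ t, egg (γ t) = (‖a t‖ ^ 2 - ‖a 0‖ ^ 2) + (‖b t ^ 2‖ ^ 2 - ‖b 0 ^ 2‖ ^ 2) := by
    intro t
    have h0 : ‖a 0‖ ^ 2 + ‖b 0‖ ^ 4 - 1 = 0 := by
      have : egg (γ 0) = 0 := by rw [hγ0]; exact hx
      exact this
    have h5 : ‖b t ^ 2‖ ^ 2 = ‖b t‖ ^ 4 := by rw [norm_pow]; ring
    have h6 : ‖b 0 ^ 2‖ ^ 2 = ‖b 0‖ ^ 4 := by rw [norm_pow]; ring
    rw [h5, h6]
    show ‖a t‖ ^ 2 + ‖b t‖ ^ 4 - 1 = _
    linarith
  have hO : (fun t => (‖a t‖ ^ 2 - ‖a 0‖ ^ 2) + (‖b t ^ 2‖ ^ 2 - ‖b 0 ^ 2‖ ^ 2)) =O[𝓝 0] fun t : ℂ => ‖t‖ ^ N := by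
    have : (fun t => egg (γ t)) = fun t => (‖a t‖ ^ 2 - ‖a 0‖ ^ 2) + (‖b t ^ 2‖ ^ 2 - ‖b 0 ^ 2‖ ^ 2) := funext e1
    rw [← this]
    exact hN
  have oa := order_est hA hB (k := 2 * (m + 1)) hO (by omega)
  have oB := order_est hB hA (N := N) (k := 2 * (m + 1)) (by
    refine hO.congr_left (fun t => ?_)
    ring) (by omega)
  -- first coordinate
  have hsmall : (fun t : ℂ => ‖t‖ ^ (2 * (m + 1))) =O[𝓝 0] fun t : ℂ => ‖t‖ ^ (m + 1) := by
    apply IsBigO.of_bound 1
    filter_upwards [closedBall_mem_nhds (0:ℂ) one_pos] with t ht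
    have ht' : ‖t‖ ≤ 1 := by simpa using ht
    rw [Real.norm_of_nonneg (by positivity), Real.norm_of_nonneg (by positivity), one_mul]
    exact pow_le_pow_of_le_one (norm_nonneg t) ht' (by omega)
  have oa' : (fun t => a t - a 0) =O[𝓝 0] fun t : ℂ => ‖t‖ ^ (m + 1) := oa.trans hsmall
  have ob' : (fun t => b t - b 0) =O[𝓝 0] fun t : ℂ => ‖t‖ ^ (m + 1) := by
    by_cases hb0 : b 0 = 0
    · obtain ⟨C, hC⟩ := oB.bound
      apply IsBigO.of_bound (Real.sqrt C)
      filter_upwards [hC] with t ht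
      rw [hb0] at ht ⊢
      rw [sub_zero]
      rw [zero_pow (by norm_num), sub_zero, norm_pow, Real.norm_of_nonneg (by positivity), pow_mul] at ht
      rw [Real.norm_of_nonneg (by positivity)]
      have hC0 : 0 ≤ C ∨ ‖t‖ ^ (m + 1) = 0 := by
        by_contra hneg
        push Not at hneg
        have h7 : 0 < (‖t‖ ^ 2) ^ (m + 1) := by
          have : 0 < ‖t‖ := by
            by_contra h
            have : ‖t‖ = 0 := le_antisymm (not_lt.mp h) (norm_nonneg _)
            exact hneg.2 (by rw [this]; exact zero_pow (by omega))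
          positivity
        nlinarith [sq_nonneg ‖b t‖]
      have h8 : ‖b t‖ ^ 2 ≤ (Real.sqrt C * ‖t‖ ^ (m + 1)) ^ 2 := by
        rcases hC0 with h | h
        · rw [mul_pow, Real.sq_sqrt h]
          calc ‖b t‖ ^ 2 ≤ C * (‖t‖ ^ 2) ^ (m + 1) := ht
            _ = C * (‖t‖ ^ (m + 1)) ^ 2 := by rw [← pow_mul, ← pow_mul, mul_comm 2]
        · rw [h, mul_zero]
          calc ‖b t‖ ^ 2 ≤ C * (‖t‖ ^ 2) ^ (m + 1) := ht
            _ = C * (‖t‖ ^ (m + 1)) ^ 2 := by rw [← pow_mul, ← pow_mul, mul_comm 2]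
            _ = 0 ^ 2 := by rw [h]; ring
      exact le_of_sq_le_sq h8 (by positivity)
    · have hsum0 : b 0 + b 0 ≠ 0 := by
        rw [← two_mul]
        exact mul_ne_zero two_ne_zero hb0
      have h9 : (fun t => b t - b 0) =ᶠ[𝓝 0] fun t => (b t ^ 2 - b 0 ^ 2) * (b t + b 0)⁻¹ := by
        have h10 : ∀ᶠ t in 𝓝 (0:ℂ), b t + b 0 ≠ 0 := by
          exact (hb'.continuousAt.add continuousAt_const).eventually_ne hsum0
        filter_upwards [h10] with t ht
        field_simp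
        ring
      refine h9.trans_isBigO ?_
      have h11 : (fun t => (b t + b 0)⁻¹) =O[𝓝 0] fun _ => (1:ℝ) := by
        have hc : ContinuousAt (fun t => (b t + b 0)⁻¹) 0 := by
          exact (hb'.continuousAt.add continuousAt_const).inv₀ hsum0
        exact (hc.norm.isBoundedUnder_le).isBigO_one ℝ
      have h12 := (oB.trans hsmall).mul h11
      simpa using h12
  -- combine
  obtain ⟨C1, hC1⟩ := oa'.bound
  obtain ⟨C2', hC2⟩ := ob'.bound
  apply IsBigO.of_bound (C1 + C2')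
  filter_upwards [hC1, hC2] with t h1 h2
  have hn : ‖γ t - x‖ ≤ ‖a t - a 0‖ + ‖b t - b 0‖ := by
    have h3 := norm_sq_C2 (γ t - x)
    have h5 : (γ t - x) 0 = a t - a 0 := by
      simp only [PiLp.sub_apply, ha, hγ0]
    have h6 : (γ t - x) 1 = b t - b 0 := by
      simp only [PiLp.sub_apply, hb, hγ0]
    rw [h5, h6] at h3
    apply le_of_sq_le_sq _ (by positivity)
    rw [h3]
    nlinarith [norm_nonneg (a t - a 0), norm_nonneg (b t - b 0)]
  rw [Real.norm_of_nonneg (by positivity)] at h1 h2 ⊢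
  linarith

end Pool.Agent.H788R3.EggSq
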